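import Pool.Agent.Lib.MP_fed0c4_co.Main

/-! Definitions for the proof that `M_d` outgrows every computable function (`d ≥ 3`).
Chain: machine run, finite monoid with zero, Steinberg relations over words, embedding in a group
generated by three involutions, labels read from short cycles. -/

namespace Pool.Agent.Lib.MP_fed0c4_co.U

/-- Value of a word. -/
def wv {J K : Type} [Monoid K] (y : J → K) (L : List J) : K := (L.map y).prod

@[simp] theorem wv_nil {J K : Type} [Monoid K] (y : J → K) : wv y [] = 1 := rfl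

@[simp] theorem wv_cons {J K : Type} [Monoid K] (y : J → K) (a : J) (L : List J) :
    wv y (a :: L) = y a * wv y L := by simp [wv]

@[simp] theorem wv_append {J K : Type} [Monoid K] (y : J → K) (L L' : List J) :
    wv y (L ++ L') = wv y L * wv y L' := by simp [wv]

theorem wv_reverse {J K : Type} [Group K] (y : J → K) (h : ∀ j, y j * y j = 1) (L : List J) :
    wv y L.reverse = (wv y L)⁻¹ := by
  induction L with
  | nil => simp
  | cons a L ih =>
    rw [List.reverse_cons, wv_append, ih, wv_cons, wv_cons, wv_nil, mul_one, mul_inv_rev,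
      inv_eq_of_mul_eq_one_right (h a)]

theorem map_wv {J K K' : Type} [Monoid K] [Monoid K'] (f : K →* K') (y : J → K) (L : List J) :
    f (wv y L) = wv (fun j => f (y j)) L := by
  induction L with
  | nil => simp
  | cons a L ih => simp [ih]

theorem wv_flatMap {I J K : Type} [Monoid K] (y : I → K) (ω : J → List I) (L : List J) :
    wv y (L.flatMap ω) = wv (fun j => wv y (ω j)) L := by
  induction L with
  | nil => simp
  | cons a L ih => simp [List.flatMap_cons, ih]

/-! The generators `x = inl 0`, `y = inl 1`, `z = inl 2` and the padding `inr j`. -/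

/-- Pairs of letters that are declared to commute. -/
def Cm {m : ℕ} (e i : Fin 3 ⊕ Fin m) : Prop :=
  e.isRight ∨ i.isRight ∨ (e = .inl 0 ∧ i = .inl 1) ∨ (e = .inl 1 ∧ i = .inl 0)

/-- The short relations and non-relations from which the labels are read. -/
structure Marked {G : Type} [Group G] {m : ℕ} (s : Fin 3 ⊕ Fin m → G) : Prop where
  sq : ∀ i, s i * s i = 1
  ne : ∀ i, s i ≠ 1
  inj : Function.Injective s
  comm : ∀ e i, Cm e i → Commute (s e) (s i)
  four : ∀ e i j l, i ≠ e → l ≠ e → s l * (s j * (s i * s e)) = 1 → Cm e i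
  oct : (s (.inl 2) * s (.inl 0)) ^ 4 = 1
  noct : ∀ a b c : Fin 3, a ≠ 2 → b ≠ 2 → c ≠ 2 →
    s (.inl 2) * s (.inl a) * (s (.inl 2) * s (.inl b) * (s (.inl 2) * s (.inl c) *
      (s (.inl 2) * s (.inl 1)))) ≠ 1

/-! Steinberg words. -/

abbrev Gen (Λ : Type) : Type := Fin 5 × Fin 5 × Option Λ

/-- An index different from `i` and `j`. -/
def spare (i j : Fin 5) : Fin 5 :=
  if i ≠ 0 ∧ j ≠ 0 then 0 else if i ≠ 1 ∧ j ≠ 1 then 1 else 2

theorem spare_ne : ∀ i j : Fin 5, spare i j ≠ i ∧ spare i j ≠ j := by decide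

/-- The word for the elementary matrix `e_ij (u)`. -/
def Ew {Λ : Type} : Fin 5 → Fin 5 → List Λ → List (Gen Λ)
  | i, j, [] => [(i, j, none)]
  | i, j, a :: u => ((i, spare i j, some a) :: Ew (spare i j) j u) ++
      ((i, spare i j, some a) :: Ew (spare i j) j u)

theorem length_Ew {Λ : Type} (u : List Λ) : ∀ i j, (Ew i j u).length + 2 = 3 * 2 ^ u.length := by
  induction u with
  | nil => intro i j; rfl
  | cons a u ih =>
    intro i j
    have := ih (spare i j) j
    simp only [Ew, List.length_append, List.length_cons, pow_succ]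
    omega

def E {Λ P : Type} [Group P] (κ : Gen Λ → P) (i j : Fin 5) (u : List Λ) : P := wv κ (Ew i j u)

/-- The Steinberg relations (characteristic 2) for words of length at most `n`. -/
structure St {Λ P : Type} [Group P] (κ : Gen Λ → P) (n : ℕ) : Prop where
  sq : ∀ i j u, i ≠ j → u.length ≤ n → E κ i j u * E κ i j u = 1
  cm : ∀ i j k l u v, i ≠ j → k ≠ l → j ≠ k → i ≠ l → u.length ≤ n → v.length ≤ n →
    Commute (E κ i j u) (E κ k l v)
  mu : ∀ i j l u v, i ≠ j → j ≠ l → i ≠ l → u.length + v.length ≤ n →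
    (E κ i j u * E κ j l v) ^ 2 = E κ i l (u ++ v)

/-! Machines: state, scanned symbol, left stack, right stack. -/

abbrev Cfg (Q Γ : Type) : Type := Q × Γ × List Γ × List Γ

abbrev Tab (Q Γ : Type) : Type := Q → Γ → Option (Q × (Bool ⊕ Γ))

/-- The effect of one instruction: `inr b` writes, `inl true` moves right, `inl false` left. -/
def app {Q Γ : Type} [Inhabited Γ] (a : Γ) (l r : List Γ) : Q × (Bool ⊕ Γ) → Cfg Q Γ
  | (q, .inr b) => (q, b, l, r)
  | (q, .inl true) => (q, r.headI, a :: l, r.tail)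
  | (q, .inl false) => (q, l.headI, l.tail, a :: r)

def rstep {Q Γ : Type} [Inhabited Γ] (δ : Tab Q Γ) (c : Cfg Q Γ) : Option (Cfg Q Γ) :=
  (δ c.1 c.2.1).map (app c.2.1 c.2.2.1 c.2.2.2)

/-- Exactly `t` steps lead from `c` to `c'`. -/
def Runs {Q Γ : Type} [Inhabited Γ] (δ : Tab Q Γ) : ℕ → Cfg Q Γ → Cfg Q Γ → Prop
  | 0, c, c' => c = c'
  | t + 1, c, c' => ∃ c1, rstep δ c = some c1 ∧ Runs δ t c1 c'

/-- Letters: heads, stack letters (`false` left, `true` right, `none` the bottom), the clock. -/
abbrev Let (Q Γ : Type) : Type := (Q × Γ) ⊕ (Bool × Option Γ) ⊕ Unit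

def hd {Q Γ : Type} (q : Q) (a : Γ) : Let Q Γ := .inl (q, a)
def pu {Q Γ : Type} (b : Bool) (o : Option Γ) : Let Q Γ := .inr (.inl (b, o))
def ck {Q Γ : Type} : Let Q Γ := .inr (.inr ())

/-- The word of a configuration. -/
def cw {Q Γ : Type} (c : Cfg Q Γ) : List (Let Q Γ) :=
  (pu false none :: c.2.2.1.reverse.map fun b => pu false (some b)) ++
    (pu true none :: c.2.2.2.reverse.map fun b => pu true (some b)) ++ [hd c.1 c.2.1]

/-- The defining relations of the monoid of the machine. -/
inductive Rule {Q Γ : Type} [Inhabited Γ] (δ : Tab Q Γ) : List (Let Q Γ) → List (Let Q Γ) → Prop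
  | comm (o o') : Rule δ [pu false o, pu true o'] [pu true o', pu false o]
  | write {q a q' b} : δ q a = some (q', .inr b) → Rule δ [hd q a] [hd q' b, ck]
  | move {q a q' d} (c) : δ q a = some (q', .inl d) →
      Rule δ [pu d (some c), hd q a] [pu (!d) (some a), hd q' c, ck]
  | move0 {q a q' d} : δ q a = some (q', .inl d) →
      Rule δ [pu d none, hd q a] [pu d none, pu (!d) (some a), hd q' default, ck]

theorem Rule.len {Q Γ : Type} [Inhabited Γ] {δ : Tab Q Γ} {u u' : List (Let Q Γ)}
    (h : Rule δ u u') : u.length ≤ 4 ∧ u'.length ≤ 4 := by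
  cases h <;> simp

end Pool.Agent.Lib.MP_fed0c4_co.U
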