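import Pool.Agent.Lib.MP_fed0c4_co.U.Main

/-! The statement of the retired hand-in `Superlinear` follows from that of `Uncomputable`. -/

namespace Pool.Agent.Lib.MP_fed0c4_co.U

theorem superlinear_of_uncomputable
    (H : ∀ d : ℕ, 3 ≤ d → ∀ f : ℕ → ℕ, Computable f →
      ∀ᶠ r in Filter.atTop, f r < (maxMinDiam d r).toNat) :
    ∃ d : ℕ, 1 ≤ d ∧
      Filter.Tendsto (fun r : ℕ => ((maxMinDiam d r).toNat : ℝ) / (r : ℝ)) Filter.atTop
        Filter.atTop := by
  refine ⟨3, by norm_num, ?_⟩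
  have h := H 3 le_rfl (fun r => r * r)
    (Primrec.nat_mul.to_comp.comp Computable.id Computable.id)
  refine Filter.tendsto_atTop_mono' _ ?_ tendsto_natCast_atTop_atTop
  filter_upwards [h, Filter.eventually_gt_atTop 0] with r hr h0
  have h1 : (0 : ℝ) < r := by exact_mod_cast h0
  rw [le_div_iff₀ h1]
  exact_mod_cast hr.le

end Pool.Agent.Lib.MP_fed0c4_co.U
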