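import Pool.Agent.Lib.MP_fed0c4_co.U.Defs

/-! Labels of the edges `x`, `y`, `z` are read from 4-cycles and 8-cycles. -/

namespace Pool.Agent.Lib.MP_fed0c4_co.U

open SimpleGraph

/-- A chart of the `r`-ball around `v` in the group. -/
structure Chart {G V I : Type} [Group G] (s : I → G) (H : SimpleGraph V) (r : ℕ) (v : V)
    (ψ : V → G) : Prop where
  root : ψ v = 1
  inj : ∀ a b, a ∈ ballSet H v r → b ∈ ballSet H v r → ψ a = ψ b → a = b
  fwd : ∀ a b, a ∈ ballSet H v r → b ∈ ballSet H v r → (H.Adj a b ↔ ∃ i, ψ b = s i * ψ a)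
  bwd : ∀ a t, a ∈ ballSet H v t → t + 1 ≤ r → ∀ i, ∃ b, H.Adj a b ∧ ψ b = s i * ψ a

theorem exists_chart {G V I : Type} [Group G] {s : I → G} (h2 : ∀ i, s i * s i = 1)
    (h1 : ∀ i, s i ≠ 1) {r : ℕ} {H : SimpleGraph V} {v : V}
    (h : BallIso H v r ((cay s h2 h1).induce (ballSet (cay s h2 h1) 1 r))
      ⟨1, self_mem_ballSet _ _ _⟩) : ∃ ψ, Chart s H r v ψ := by
  classical
  obtain ⟨φ, hv, hφ⟩ := h
  let ψ : V → G := fun a => if h : a ∈ ballSet H v r then (φ ⟨a, h⟩ : G) else 1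
  have hψ : ∀ a (h : a ∈ ballSet H v r), ψ a = (φ ⟨a, h⟩ : G) := fun a h => dif_pos h
  have hroot : ψ v = 1 := by rw [hψ v hv, hφ]
  have hfwd : ∀ a b, a ∈ ballSet H v r → b ∈ ballSet H v r →
      (H.Adj a b ↔ ∃ i, ψ b = s i * ψ a) := by
    intro a b ha hb
    rw [hψ a ha, hψ b hb]
    exact (φ.map_adj_iff (v := ⟨a, ha⟩) (w := ⟨b, hb⟩)).symm
  have hball : ∀ t, t ≤ r → ∀ a ∈ ballSet H v t, ψ a ∈ ballSet (cay s h2 h1) 1 t := by
    intro t
    induction t with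
    | zero =>
      intro _ a ha
      have : a = v := by simpa [ballSet] using ha
      subst this
      rw [hroot]
      exact self_mem_ballSet _ _ _
    | succ t ih =>
      intro ht a ha
      have h3 := ballSet_succ_subset H v t ha
      simp only [Set.mem_iUnion, Set.mem_insert_iff, mem_neighborSet] at h3
      obtain ⟨u, hu, h4⟩ := h3
      have h5 := ih (by omega) u hu
      rcases h4 with rfl | h4
      · exact ballSet_mono _ _ (Nat.le_succ t) h5
      · exact adj_mem_ballSet h5 ((hfwd u a (ballSet_mono H v (by omega) hu)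
          (ballSet_mono H v ht ha)).1 h4)
  refine ⟨ψ, hroot, ?_, hfwd, ?_⟩
  · intro a b ha hb hab
    rw [hψ a ha, hψ b hb] at hab
    exact congrArg Subtype.val (φ.injective (Subtype.ext hab))
  · intro a t ha ht i
    have h5 : s i * ψ a ∈ ballSet (cay s h2 h1) 1 r :=
      ballSet_mono _ _ ht (adj_mem_ballSet (hball t (by omega) a ha) ⟨i, rfl⟩)
    have h6 : ψ (φ.symm ⟨_, h5⟩ : ballSet H v r) = s i * ψ a := by
      rw [hψ _ (φ.symm ⟨_, h5⟩).2]
      simp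
    exact ⟨_, (hfwd a _ (ballSet_mono H v (by omega) ha) (φ.symm ⟨_, h5⟩).2).2 ⟨i, h6⟩, h6⟩

/-- The path `u, w, a` closes up to a 4-cycle. -/
def Sq {V : Type} (H : SimpleGraph V) (u w a : V) : Prop := ∃ b, b ≠ w ∧ H.Adj a b ∧ H.Adj b u

/-- Every continuation of the edge closes up to a 4-cycle. -/
def Cen {V : Type} (H : SimpleGraph V) (u w : V) : Prop := ∀ a, H.Adj w a → a ≠ u → Sq H u w a

def Two {V : Type} (H : SimpleGraph V) (u w : V) : Prop :=
  ¬ Cen H u w ∧ ∃ a, H.Adj w a ∧ a ≠ u ∧ ¬ Cen H w a ∧ Sq H u w a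

def Zed {V : Type} (H : SimpleGraph V) (u w : V) : Prop := ¬ Cen H u w ∧ ¬ Two H u w

def Oct {V : Type} (H : SimpleGraph V) (u w : V) : Prop :=
  Two H u w ∧ ∃ a2 a3 a4 a5 a6 a7, (H.Adj w a2 ∧ Zed H w a2) ∧ (H.Adj a2 a3 ∧ Two H a2 a3) ∧
    (H.Adj a3 a4 ∧ Zed H a3 a4) ∧ (H.Adj a4 a5 ∧ Two H a4 a5) ∧ (H.Adj a5 a6 ∧ Zed H a5 a6) ∧
    (H.Adj a6 a7 ∧ Two H a6 a7) ∧ (H.Adj a7 u ∧ Zed H a7 u)

/-- The label of an edge, read in the graph. -/
def Lb {V : Type} (H : SimpleGraph V) (j : Fin 3) (u w : V) : Prop :=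
  (j = 0 ∧ Oct H u w) ∨ (j = 1 ∧ Two H u w ∧ ¬ Oct H u w) ∨ (j = 2 ∧ Zed H u w)

section
variable {G V : Type} [Group G] {m : ℕ} {s : Fin 3 ⊕ Fin m → G} {H : SimpleGraph V} {r : ℕ}
  {v : V} {ψ : V → G}

theorem Chart.lab (c : Chart s H r v ψ) {u w : V} {t : ℕ} (hu : u ∈ ballSet H v t)
    (ht : t + 1 ≤ r) (h : H.Adj u w) : ∃ i, ψ w = s i * ψ u :=
  (c.fwd u w (ballSet_mono H v (by omega) hu) (ballSet_mono H v ht (adj_mem_ballSet hu h))).1 h

theorem Chart.back (c : Chart s H r v ψ) (hs : Marked s) {u w a : V} {t : ℕ} {e i}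
    (hu : u ∈ ballSet H v t) (ht : t + 2 ≤ r) (h : H.Adj u w) (h' : H.Adj w a)
    (he : ψ w = s e * ψ u) (hi : ψ a = s i * ψ w) : a ≠ u ↔ i ≠ e := by
  apply not_congr
  constructor
  · rintro rfl
    apply hs.inj
    have h3 : s i * ψ w = s e * ψ w := by
      rw [← hi, he, ← mul_assoc, hs.sq, one_mul]
    exact mul_right_cancel h3
  · rintro rfl
    apply c.inj _ _ (ballSet_mono H v ht (adj_mem_ballSet (adj_mem_ballSet hu h) h'))
      (ballSet_mono H v (by omega) hu)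
    rw [hi, he, ← mul_assoc, hs.sq, one_mul]

theorem Chart.sq (c : Chart s H r v ψ) (hs : Marked s) {u w a : V} {t : ℕ} {e i}
    (hu : u ∈ ballSet H v t) (ht : t + 2 ≤ r) (h : H.Adj u w) (h' : H.Adj w a) (hau : a ≠ u)
    (he : ψ w = s e * ψ u) (hi : ψ a = s i * ψ w) : Sq H u w a ↔ Cm e i := by
  have hie := (c.back hs hu ht h h' he hi).1 hau
  have hu' : u ∈ ballSet H v r := ballSet_mono H v (by omega) hu
  have hw' : w ∈ ballSet H v r := ballSet_mono H v (by omega) (adj_mem_ballSet hu h)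
  have ha' : a ∈ ballSet H v r :=
    ballSet_mono H v ht (adj_mem_ballSet (adj_mem_ballSet hu h) h')
  constructor
  · rintro ⟨b, hbw, hab, hbu⟩
    have hb' : b ∈ ballSet H v r := ballSet_mono H v (by omega) (adj_mem_ballSet hu hbu.symm)
    obtain ⟨j, hj⟩ := (c.fwd a b ha' hb').1 hab
    obtain ⟨l, hl⟩ := (c.fwd b u hb' hu').1 hbu
    refine hs.four e i j l hie ?_ ?_
    · rintro rfl
      apply hbw
      apply c.inj _ _ hb' hw'
      rw [he, hl, ← mul_assoc, hs.sq, one_mul]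
    · have h3 : s l * (s j * (s i * s e)) * ψ u = 1 * ψ u := by
        rw [one_mul, mul_assoc, mul_assoc, mul_assoc, ← he, ← hi, ← hj, ← hl]
      exact mul_right_cancel h3
  · intro hc
    obtain ⟨b, hub, hb⟩ := c.bwd u t hu (by omega) i
    have hb' : b ∈ ballSet H v r := ballSet_mono H v (by omega) (adj_mem_ballSet hu hub)
    refine ⟨b, ?_, (c.fwd a b ha' hb').2 ⟨e, ?_⟩, hub.symm⟩
    · rintro rfl
      exact hie (hs.inj (mul_right_cancel (hb.symm.trans he)))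
    · rw [hb, hi, he, ← mul_assoc, ← mul_assoc, (hs.comm e i hc).eq, mul_assoc (s i), hs.sq,
        mul_one]

theorem Chart.cen (c : Chart s H r v ψ) (hs : Marked s) {u w : V} {t : ℕ} {e}
    (hu : u ∈ ballSet H v t) (ht : t + 2 ≤ r) (h : H.Adj u w) (he : ψ w = s e * ψ u) :
    Cen H u w ↔ e.isRight = true := by
  have hw := adj_mem_ballSet hu h
  constructor
  · intro hc
    by_contra hne
    obtain ⟨i, hi1, hi2⟩ : ∃ i, i ≠ e ∧ ¬ Cm e i := by
      rcases e with k | k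
      · by_cases hk : k = 2
        · subst hk
          exact ⟨.inl 0, by simp, by simp [Cm]⟩
        · exact ⟨.inl 2, by simpa using Ne.symm hk, by simp [Cm]⟩
      · simp at hne
    obtain ⟨a, ha, hi⟩ := c.bwd w (t + 1) hw ht i
    have hau := (c.back hs hu ht h ha he hi).2 hi1
    exact hi2 ((c.sq hs hu ht h ha hau he hi).1 (hc a ha hau))
  · intro hc a ha hau
    obtain ⟨i, hi⟩ := c.lab hw ht ha
    exact (c.sq hs hu ht h ha hau he hi).2 (Or.inl hc)

theorem Chart.two (c : Chart s H r v ψ) (hs : Marked s) {u w : V} {t : ℕ} {e}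
    (hu : u ∈ ballSet H v t) (ht : t + 3 ≤ r) (h : H.Adj u w) (he : ψ w = s e * ψ u) :
    Two H u w ↔ ∃ k : Fin 3, k ≠ 2 ∧ e = .inl k := by
  have hw := adj_mem_ballSet hu h
  unfold Two
  rw [c.cen hs hu (by omega) h he]
  constructor
  · rintro ⟨h1, a, ha, hau, h2, h3⟩
    obtain ⟨i, hi⟩ := c.lab hw (by omega) ha
    rw [c.cen hs hw ht ha hi] at h2
    rcases (c.sq hs hu (by omega) h ha hau he hi).1 h3 with h4 | h4 | h4 | h4
    · exact absurd h4 h1
    · exact absurd h4 h2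
    · exact ⟨0, by decide, h4.1⟩
    · exact ⟨1, by decide, h4.1⟩
  · rintro ⟨k, hk, rfl⟩
    refine ⟨by simp, ?_⟩
    obtain ⟨i, hi1, hi2, hi3⟩ : ∃ i : Fin 3 ⊕ Fin m, i ≠ .inl k ∧ ¬ i.isRight = true ∧
        Cm (.inl k) i := by
      have : k = 0 ∨ k = 1 := by omega
      rcases this with rfl | rfl
      · exact ⟨.inl 1, by simp, by simp, by simp [Cm]⟩
      · exact ⟨.inl 0, by simp, by simp, by simp [Cm]⟩
    obtain ⟨a, ha, hi⟩ := c.bwd w (t + 1) hw (by omega) i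
    have hau := (c.back hs hu (by omega) h ha he hi).2 hi1
    refine ⟨a, ha, hau, ?_, (c.sq hs hu (by omega) h ha hau he hi).2 hi3⟩
    rwa [c.cen hs hw ht ha hi]

theorem Chart.zed (c : Chart s H r v ψ) (hs : Marked s) {u w : V} {t : ℕ} {e}
    (hu : u ∈ ballSet H v t) (ht : t + 3 ≤ r) (h : H.Adj u w) (he : ψ w = s e * ψ u) :
    Zed H u w ↔ e = .inl 2 := by
  unfold Zed
  rw [c.cen hs hu (by omega) h he, c.two hs hu ht h he]
  rcases e with k | k
  · by_cases hk : k = 2 <;> simp [hk]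
  · simp

theorem Chart.oct (c : Chart s H r v ψ) (hs : Marked s) {u w : V} {t : ℕ} {e}
    (hu : u ∈ ballSet H v t) (ht : t + 10 ≤ r) (h : H.Adj u w) (he : ψ w = s e * ψ u) :
    Oct H u w ↔ e = .inl 0 := by
  have hw := adj_mem_ballSet hu h
  unfold Oct
  rw [c.two hs hu (by omega) h he]
  constructor
  · rintro ⟨⟨k, hk, rfl⟩, a2, a3, a4, a5, a6, a7, ⟨p2, q2⟩, ⟨p3, q3⟩, ⟨p4, q4⟩, ⟨p5, q5⟩,
      ⟨p6, q6⟩, ⟨p7, q7⟩, p8, q8⟩
    have m2 := adj_mem_ballSet hw p2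
    have m3 := adj_mem_ballSet m2 p3
    have m4 := adj_mem_ballSet m3 p4
    have m5 := adj_mem_ballSet m4 p5
    have m6 := adj_mem_ballSet m5 p6
    have m7 := adj_mem_ballSet m6 p7
    obtain ⟨i2, e2⟩ := c.lab hw (by omega) p2
    obtain ⟨i3, e3⟩ := c.lab m2 (by omega) p3
    obtain ⟨i4, e4⟩ := c.lab m3 (by omega) p4
    obtain ⟨i5, e5⟩ := c.lab m4 (by omega) p5
    obtain ⟨i6, e6⟩ := c.lab m5 (by omega) p6
    obtain ⟨i7, e7⟩ := c.lab m6 (by omega) p7
    obtain ⟨i8, e8⟩ := c.lab m7 (by omega) p8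
    obtain rfl := (c.zed hs hw (by omega) p2 e2).1 q2
    obtain ⟨k3, n3, rfl⟩ := (c.two hs m2 (by omega) p3 e3).1 q3
    obtain rfl := (c.zed hs m3 (by omega) p4 e4).1 q4
    obtain ⟨k5, n5, rfl⟩ := (c.two hs m4 (by omega) p5 e5).1 q5
    obtain rfl := (c.zed hs m5 (by omega) p6 e6).1 q6
    obtain ⟨k7, n7, rfl⟩ := (c.two hs m6 (by omega) p7 e7).1 q7
    obtain rfl := (c.zed hs m7 (by omega) p8 e8).1 q8
    have : k = 0 ∨ k = 1 := by omega
    rcases this with rfl | rfl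
    · rfl
    · exfalso
      apply hs.noct k7 k5 k3 n7 n5 n3
      apply mul_right_cancel (b := ψ u)
      simp only [mul_assoc, one_mul]
      rw [← he, ← e2, ← e3, ← e4, ← e5, ← e6, ← e7, ← e8]
  · rintro rfl
    refine ⟨⟨0, by decide, rfl⟩, ?_⟩
    obtain ⟨a2, p2, e2⟩ := c.bwd w _ hw (by omega) (.inl 2)
    have m2 := adj_mem_ballSet hw p2
    obtain ⟨a3, p3, e3⟩ := c.bwd a2 _ m2 (by omega) (.inl 0)
    have m3 := adj_mem_ballSet m2 p3
    obtain ⟨a4, p4, e4⟩ := c.bwd a3 _ m3 (by omega) (.inl 2)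
    have m4 := adj_mem_ballSet m3 p4
    obtain ⟨a5, p5, e5⟩ := c.bwd a4 _ m4 (by omega) (.inl 0)
    have m5 := adj_mem_ballSet m4 p5
    obtain ⟨a6, p6, e6⟩ := c.bwd a5 _ m5 (by omega) (.inl 2)
    have m6 := adj_mem_ballSet m5 p6
    obtain ⟨a7, p7, e7⟩ := c.bwd a6 _ m6 (by omega) (.inl 0)
    have m7 := adj_mem_ballSet m6 p7
    have e8 : ψ u = s (.inl 2) * ψ a7 := by
      have h4 := hs.oct
      simp only [pow_succ, pow_zero, one_mul, mul_assoc] at h4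
      rw [e7, e6, e5, e4, e3, e2, he]
      simp only [← mul_assoc] at h4 ⊢
      rw [h4, one_mul]
    have p8 : H.Adj a7 u := (c.fwd a7 u (ballSet_mono H v (by omega) m7)
      (ballSet_mono H v (by omega) hu)).2 ⟨_, e8⟩
    exact ⟨a2, a3, a4, a5, a6, a7, ⟨p2, (c.zed hs hw (by omega) p2 e2).2 rfl⟩,
      ⟨p3, (c.two hs m2 (by omega) p3 e3).2 ⟨0, by decide, rfl⟩⟩,
      ⟨p4, (c.zed hs m3 (by omega) p4 e4).2 rfl⟩,
      ⟨p5, (c.two hs m4 (by omega) p5 e5).2 ⟨0, by decide, rfl⟩⟩,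
      ⟨p6, (c.zed hs m5 (by omega) p6 e6).2 rfl⟩,
      ⟨p7, (c.two hs m6 (by omega) p7 e7).2 ⟨0, by decide, rfl⟩⟩,
      p8, (c.zed hs m7 (by omega) p8 e8).2 rfl⟩

theorem Chart.lb (c : Chart s H r v ψ) (hs : Marked s) {u w : V} {t : ℕ} {e} (j : Fin 3)
    (hu : u ∈ ballSet H v t) (ht : t + 10 ≤ r) (h : H.Adj u w) (he : ψ w = s e * ψ u) :
    Lb H j u w ↔ e = .inl j := by
  unfold Lb
  rw [c.oct hs hu ht h he, c.two hs hu (by omega) h he, c.zed hs hu (by omega) h he]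
  rcases e with k | k
  · simp only [Sum.inl.injEq]
    clear he
    revert j k
    decide
  · simp

end

theorem exists_labels3 {G V : Type} [Group G] {m : ℕ} {s : Fin 3 ⊕ Fin m → G} (hs : Marked s)
    (r : ℕ) (H : SimpleGraph V)
    (hH : ∀ v, BallIso H v r ((cay s hs.sq hs.ne).induce (ballSet (cay s hs.sq hs.ne) 1 r))
      ⟨1, self_mem_ballSet _ _ _⟩) (hr : 14 ≤ r) :
    ∃ σ : Fin 3 → Equiv.Perm V, ∀ (L : List (Fin 3)), L.length + 12 ≤ r → ∀ v,
      (wv σ L v = v ↔ wv (fun a => s (.inl a)) L = 1) := by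
  choose ψ hψ using fun v => exists_chart hs.sq hs.ne (hH v)
  choose σ h1 h2 using fun (j : Fin 3) (u : V) =>
    (hψ u).bwd u 0 (self_mem_ballSet H u 0) (by omega) (.inl j)
  have h3 : ∀ j u, Lb H j u (σ j u) := fun j u =>
    ((hψ u).lb hs j (self_mem_ballSet H u 0) (by omega) (h1 j u) (h2 j u)).2 rfl
  have main : ∀ (v : V) (L : List (Fin 3)), L.length + 12 ≤ r →
      L.foldr σ v ∈ ballSet H v L.length ∧ ψ v (L.foldr σ v) = wv (fun a => s (.inl a)) L := by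
    intro v L
    induction L with
    | nil => exact fun _ => ⟨self_mem_ballSet H v 0, (hψ v).root⟩
    | cons j L ih =>
      intro hL
      rw [List.length_cons] at hL
      obtain ⟨a1, a2⟩ := ih (by omega)
      refine ⟨adj_mem_ballSet a1 (h1 j _), ?_⟩
      obtain ⟨i, hi⟩ := (hψ v).lab a1 (by omega) (h1 j _)
      obtain rfl := ((hψ v).lb hs j a1 (by omega) (h1 j _) hi).1 (h3 j _)
      rw [List.foldr_cons, hi, a2, wv_cons]
  have key : ∀ (v : V) (L : List (Fin 3)), L.length + 12 ≤ r →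
      (L.foldr σ v = v ↔ wv (fun a => s (.inl a)) L = 1) := by
    intro v L hL
    obtain ⟨a1, a2⟩ := main v L hL
    rw [← a2]
    constructor
    · intro h
      rw [h, (hψ v).root]
    · intro h
      exact (hψ v).inj _ _ (ballSet_mono H v (by omega) a1) (self_mem_ballSet H v r)
        (h.trans (hψ v).root.symm)
  have hinv : ∀ j, Function.Involutive (σ j) := fun j v =>
    (key v [j, j] (by simpa using hr)).2 (by simp [hs.sq])
  refine ⟨fun j => (hinv j).toPerm _, fun L hL v => ?_⟩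
  rw [← key v L hL]
  have : wv (fun j => (hinv j).toPerm _) L v = L.foldr σ v := by
    clear hL
    induction L with
    | nil => rfl
    | cons j L ih => rw [wv_cons, Equiv.Perm.mul_apply, ih]; rfl
  rw [this]

end Pool.Agent.Lib.MP_fed0c4_co.U
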