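import Pool.Agent.Lib.MP_fed0c4_co.U.Defs

/-! A halting run gives a finite ring of characteristic 2 that satisfies the rules.
Plan. Letters act (left to right) as maps `X → Option X` on
`X = (Option (List Γ) × Option (List Γ)) ⊕ ℕ`: `pu false none` sends `inl (none, ρ)` to
`inl (some [], ρ)`, `pu false (some b)` sends `inl (some l, ρ)` to `inl (some (b :: l), ρ)`, the same
on the right, `hd q a` sends `inl (some l, some r)` to `inr i` if `Runs δ i (q, a, l, r) φ` (such an
`i` is unique since `φ` halts), `ck` sends `inr i` to `inr (i + 1)`; all else is undefined. The rules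
hold as equalities of maps (`List.foldl` with `Option.bind`). The set `A` of points `inr i`, `i ≤ t`,
and `inl (lam, ρ)` with both lengths at most `B = |φ.left| + |φ.right| + t` is finite and its
complement is closed under all letters (a step shortens a stack by at most one). Let
`R = Module.End (ZMod 2) (A → ZMod 2)`, `(ξ a f) x = f y` if `a` sends `x` to `y ∈ A`, else `0`; a
word acts in the same way (the complement is absorbing). `cw c` is defined only at
`inl (none, none)`, with value `inr t`, and `inr (t + 1)` is outside `A`. -/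

namespace Pool.Agent.Lib.MP_fed0c4_co.U

/-- Letters acting on a set with a finite part whose complement is absorbing. -/
theorem model_of {L X : Type} (act : X → L → X) (A : Set X) (hA : A.Finite)
    (h : ∀ x a, act x a ∈ A → x ∈ A) :
    ∃ (R : Type) (_ : Ring R) (_ : Finite R) (ξ : L → R), (∀ x : R, x + x = 0) ∧
      (∀ u u' : List L, (∀ x, u.foldl act x = u'.foldl act x) → wv ξ u = wv ξ u') ∧
      ∀ u : List L, wv ξ u = 0 ↔ ∀ x, u.foldl act x ∉ A := by
  classical
  let V : Submodule (ZMod 2) (X → ZMod 2) :=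
    { carrier := {f | ∀ x, x ∉ A → f x = 0}
      add_mem' := fun {f g} hf hg x hx => by simp [hf x hx, hg x hx]
      zero_mem' := fun _ _ => rfl
      smul_mem' := fun c f hf x hx => by simp [hf x hx] }
  have fA : Finite A := hA
  have fV : Finite V := Finite.of_injective (fun (f : V) (x : A) => f.1 x.1) fun f g e =>
    Subtype.ext (funext fun x => by
      by_cases hx : x ∈ A
      · exact congrFun e ⟨x, hx⟩
      · rw [f.2 x hx, g.2 x hx])
  let ξ : L → Module.End (ZMod 2) V := fun a =>
    (LinearMap.funLeft (ZMod 2) (ZMod 2) fun x => act x a).restrict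
      fun f hf x hx => hf _ fun hy => hx (h x a hy)
  have key : ∀ (u : List L) (f : V) (x : X), (wv ξ u f).1 x = f.1 (u.foldl act x) := by
    intro u f
    induction u with
    | nil => intro x; rfl
    | cons a u ih => intro x; rw [wv_cons, List.foldl_cons, ← ih]; rfl
  refine ⟨Module.End (ZMod 2) V, inferInstance,
    Finite.of_injective _ DFunLike.coe_injective, ξ, fun x => ?_, fun u u' e => ?_, fun u => ?_⟩
  · rw [← two_smul (ZMod 2) x, show (2 : ZMod 2) = 0 from rfl, zero_smul]
  · ext f x; rw [key, key, e]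
  · constructor
    · intro e x hx
      have := key u ⟨fun y => if y ∈ A then 1 else 0, fun y hy => if_neg hy⟩ x
      rw [e] at this
      simp [hx] at this
    · intro e
      ext f x
      rw [key, f.2 _ (e x)]; rfl

section

variable {Q Γ : Type} [Inhabited Γ] {δ : Tab Q Γ} {φ : Cfg Q Γ}

theorem runs_unique (hφ : rstep δ φ = none) :
    ∀ (i j : ℕ) (c : Cfg Q Γ), Runs δ i c φ → Runs δ j c φ → i = j
  | 0, 0, _, _, _ => rfl
  | 0, j + 1, c, h, ⟨c1, h1, _⟩ => by
    have e : c = φ := h
    rw [e, hφ] at h1; cases h1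
  | i + 1, 0, c, ⟨c1, h1, _⟩, h => by
    have e : c = φ := h
    rw [e, hφ] at h1; cases h1
  | i + 1, j + 1, c, ⟨c1, h1, r1⟩, ⟨c2, h2, r2⟩ => by
    rw [h1] at h2
    cases h2
    rw [runs_unique hφ i j c1 r1 r2]

theorem runs_len : ∀ (i : ℕ) (c : Cfg Q Γ), Runs δ i c φ →
    c.2.2.1.length + c.2.2.2.length ≤ φ.2.2.1.length + φ.2.2.2.length
  | 0, c, h => by
    have e : c = φ := h
    rw [e]
  | i + 1, c, ⟨c1, h1, r1⟩ => by
    refine le_trans ?_ (runs_len i c1 r1)
    obtain ⟨⟨q, d⟩, -, rfl⟩ := Option.map_eq_some_iff.1 h1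
    rcases d with (_ | _) | b <;> simp only [app, List.length_cons, List.length_tail] <;> omega

open Classical in
/-- The number of steps to the final configuration. -/
noncomputable def tm (δ : Tab Q Γ) (φ c : Cfg Q Γ) : Option ℕ :=
  if h : ∃ i, Runs δ i c φ then some h.choose else none

theorem tm_iff (hφ : rstep δ φ = none) (c : Cfg Q Γ) (i : ℕ) :
    tm δ φ c = some i ↔ Runs δ i c φ := by
  unfold tm
  split_ifs with h
  · exact ⟨fun e => Option.some.inj e ▸ h.choose_spec,
      fun r => congrArg some (runs_unique hφ _ _ c h.choose_spec r)⟩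
  · exact ⟨fun e => (by cases e), fun r => (h ⟨i, r⟩).elim⟩

theorem tm_step (hφ : rstep δ φ = none) {c c1 : Cfg Q Γ} (h : rstep δ c = some c1) :
    tm δ φ c = (tm δ φ c1).map (· + 1) := by
  refine Option.ext fun i => ?_
  simp only [Option.map_eq_some_iff, tm_iff hφ]
  constructor
  · intro r
    rcases i with _ | i
    · have e : c = φ := r
      rw [e, hφ] at h; cases h
    · obtain ⟨c2, h2, r2⟩ := r
      rw [h] at h2
      cases h2
      exact ⟨i, r2, rfl⟩
  · rintro ⟨j, r, rfl⟩
    exact ⟨c1, h, r⟩

/-- A stack is fresh (`inl true`), broken (`inl false`) or a list. -/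
def push : Bool ⊕ List Γ → Option Γ → Bool ⊕ List Γ
  | .inl true, none => .inr []
  | .inr l, some b => .inr (b :: l)
  | _, _ => .inl false

abbrev Pt (Γ : Type) : Type := ((Bool ⊕ List Γ) × (Bool ⊕ List Γ)) ⊕ Option ℕ

/-- The time read by a head letter. -/
noncomputable def top (δ : Tab Q Γ) (φ : Cfg Q Γ) (q : Q) (a : Γ) : Pt Γ → Option ℕ
  | .inl (.inr l, .inr r) => tm δ φ (q, a, l, r)
  | _ => none

/-- The action of the letters; `inr none` is the sink. -/
noncomputable def act (δ : Tab Q Γ) (φ : Cfg Q Γ) (x : Pt Γ) : Let Q Γ → Pt Γ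
  | .inl (q, a) => .inr (top δ φ q a x)
  | .inr (.inl (false, o)) => x.elim (fun p => .inl (push p.1 o, p.2)) fun _ => .inr none
  | .inr (.inl (true, o)) => x.elim (fun p => .inl (p.1, push p.2 o)) fun _ => .inr none
  | .inr (.inr _) => .inr (x.elim (fun _ => none) (Option.map (· + 1)))

theorem act_sink (u : List (Let Q Γ)) : u.foldl (act δ φ) (.inr none) = .inr none := by
  induction u with
  | nil => rfl
  | cons a u ih =>
    rw [List.foldl_cons, show act δ φ (.inr none) a = .inr none by
      rcases a with _ | ⟨_ | _, _⟩ | _ <;> rfl, ih]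

theorem act_rule (hφ : rstep δ φ = none) {u u' : List (Let Q Γ)} (h : Rule δ u u') (x : Pt Γ) :
    u.foldl (act δ φ) x = u'.foldl (act δ φ) x := by
  cases h with
  | comm o o' => rcases x with ⟨x, y⟩ | n <;> rfl
  | @write q a q' b e =>
    rcases x with ⟨_ | l, _ | r⟩ | n <;> try rfl
    exact congrArg Sum.inr (tm_step hφ (c := (q, a, l, r)) (c1 := (q', b, l, r))
      (by simp only [rstep, e]; rfl))
  | @move q a q' d c e =>
    cases d
    · rcases x with ⟨(_ | _) | l, (_ | _) | r⟩ | n <;> try rfl
      exact congrArg Sum.inr (tm_step hφ (c := (q, a, c :: l, r)) (c1 := (q', c, l, a :: r))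
        (by simp only [rstep, e]; rfl))
    · rcases x with ⟨(_ | _) | l, (_ | _) | r⟩ | n <;> try rfl
      exact congrArg Sum.inr (tm_step hφ (c := (q, a, l, c :: r)) (c1 := (q', c, a :: l, r))
        (by simp only [rstep, e]; rfl))
  | @move0 q a q' d e =>
    cases d
    · rcases x with ⟨(_ | _) | l, (_ | _) | r⟩ | n <;> try rfl
      exact congrArg Sum.inr (tm_step hφ (c := (q, a, [], r)) (c1 := (q', default, [], a :: r))
        (by simp only [rstep, e]; rfl))
    · rcases x with ⟨(_ | _) | l, (_ | _) | r⟩ | n <;> try rfl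
      exact congrArg Sum.inr (tm_step hφ (c := (q, a, l, [])) (c1 := (q', default, a :: l, []))
        (by simp only [rstep, e]; rfl))

theorem push_list (L l : List Γ) :
    L.foldl (fun x b => push x (some b)) (.inr l) = .inr (L.reverse ++ l) := by
  induction L generalizing l with
  | nil => rfl
  | cons b L ih =>
    rw [List.foldl_cons, List.reverse_cons, List.append_assoc]
    exact ih (b :: l)

theorem push_bad (L : List Γ) :
    L.foldl (fun x b => push x (some b)) (.inl false) = .inl false := by
  induction L with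
  | nil => rfl
  | cons b L ih => exact ih

theorem act_left (L : List Γ) (x y : Bool ⊕ List Γ) :
    (L.map fun b => pu false (some b)).foldl (act δ φ) (.inl (x, y)) =
      .inl (L.foldl (fun x b => push x (some b)) x, y) := by
  induction L generalizing x with
  | nil => rfl
  | cons b L ih =>
    rw [List.map_cons, List.foldl_cons, List.foldl_cons, ← ih]
    rfl

theorem act_right (L : List Γ) (x y : Bool ⊕ List Γ) :
    (L.map fun b => pu true (some b)).foldl (act δ φ) (.inl (x, y)) =
      .inl (x, L.foldl (fun x b => push x (some b)) y) := by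
  induction L generalizing y with
  | nil => rfl
  | cons b L ih =>
    rw [List.map_cons, List.foldl_cons, List.foldl_cons, ← ih]
    rfl

theorem act_cw (c : Cfg Q Γ) (x y : Bool ⊕ List Γ) :
    (cw c).foldl (act δ φ) (.inl (x, y)) =
      act δ φ (.inl (c.2.2.1.reverse.foldl (fun x b => push x (some b)) (push x none),
        c.2.2.2.reverse.foldl (fun x b => push x (some b)) (push y none))) (hd c.1 c.2.1) := by
  have e1 : ∀ x y : Bool ⊕ List Γ, act δ φ (.inl (x, y)) (pu false none) = .inl (push x none, y) :=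
    fun x y => rfl
  have e2 : ∀ x y : Bool ⊕ List Γ, act δ φ (.inl (x, y)) (pu true none) = .inl (x, push y none) :=
    fun x y => rfl
  simp only [cw, List.foldl_append, List.foldl_cons, List.foldl_nil, e1, e2, act_left, act_right]

theorem act_cw_fresh (c : Cfg Q Γ) :
    (cw c).foldl (act δ φ) (.inl (.inl true, .inl true)) = .inr (tm δ φ c) := by
  rw [act_cw, show push (Γ := Γ) (.inl true) none = .inr [] from rfl, push_list, push_list,
    List.reverse_reverse, List.reverse_reverse, List.append_nil, List.append_nil]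
  rfl

theorem act_cw_cases (c : Cfg Q Γ) (x : Pt Γ) :
    (cw c).foldl (act δ φ) x = .inr (tm δ φ c) ∨ (cw c).foldl (act δ φ) x = .inr none := by
  have bad : ∀ x : Bool ⊕ List Γ, x = .inl true ∨ push x none = .inl false := fun x => by
    rcases x with (_ | _) | _ <;> simp [push]
  rcases x with ⟨x, y⟩ | n
  · rcases bad x with rfl | hx
    · rcases bad y with rfl | hy
      · exact Or.inl (act_cw_fresh c)
      · right
        rw [act_cw, hy, push_bad]
        generalize List.foldl _ _ _ = z
        rcases z with _ | _ <;> rfl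
    · right
      rw [act_cw, hx, push_bad]; rfl
  · right
    rw [cw, List.append_assoc, List.cons_append, List.foldl_cons]
    exact act_sink _

end

theorem exists_model {Q Γ : Type} [Finite Γ] [Inhabited Γ] {δ : Tab Q Γ} {t : ℕ} {c φ : Cfg Q Γ}
    (run : Runs δ t c φ) (hφ : rstep δ φ = none) :
    ∃ (R : Type) (_ : Ring R) (_ : Finite R) (ξ : Let Q Γ → R), (∀ x : R, x + x = 0) ∧
      (∀ u u', Rule δ u u' → wv ξ u = wv ξ u') ∧ wv ξ (cw c) ≠ 0 ∧ wv ξ (cw c ++ [ck]) = 0 := by
  let S : Set (Bool ⊕ List Γ) :=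
    insert (.inl true) (Sum.inr '' {l | l.length ≤ φ.2.2.1.length + φ.2.2.2.length})
  have fS : S.Finite := ((List.finite_length_le Γ _).image _).insert _
  have hS : ∀ x o, push x o ∈ S → x ∈ S := fun x o => by
    rcases x with (_ | _) | l <;> rcases o with _ | b <;> simp [S, push]
    omega
  let A : Set (Pt Γ) := Sum.inl '' (S ×ˢ S) ∪ (fun i => Sum.inr (some i)) '' Set.Iic t
  have fA : A.Finite := ((fS.prod fS).image _).union ((Set.finite_Iic t).image _)
  have hl : ∀ x y, Sum.inl (x, y) ∈ A ↔ x ∈ S ∧ y ∈ S := fun x y => by simp [A]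
  have hr : ∀ n, Sum.inr n ∈ A ↔ ∃ i ≤ t, some i = n := fun n => by simp [A]
  have h0 : Sum.inr none ∉ A := by simp [hr]
  have hA : ∀ x a, act δ φ x a ∈ A → x ∈ A := by
    rintro (⟨x, y⟩ | n) (⟨q, a⟩ | ⟨_ | _, o⟩ | u) h
    · rcases x with _ | l
      · exact (h0 h).elim
      rcases y with _ | r
      · exact (h0 h).elim
      obtain ⟨i, -, e⟩ := (hr _).1 h
      have := runs_len i _ ((tm_iff hφ _ _).1 e.symm)
      simp only at this
      refine (hl _ _).2 ⟨Or.inr ⟨l, ?_, rfl⟩, Or.inr ⟨r, ?_, rfl⟩⟩ <;>
        simp only [Set.mem_ofPred_eq] <;> omega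
    · have e : act δ φ (.inl (x, y)) (.inr (.inl (false, o))) = .inl (push x o, y) := rfl
      rw [e, hl] at h
      exact (hl _ _).2 ⟨hS _ _ h.1, h.2⟩
    · have e : act δ φ (.inl (x, y)) (.inr (.inl (true, o))) = .inl (x, push y o) := rfl
      rw [e, hl] at h
      exact (hl _ _).2 ⟨h.1, hS _ _ h.2⟩
    · exact (h0 h).elim
    · exact (h0 h).elim
    · exact (h0 h).elim
    · exact (h0 h).elim
    · obtain ⟨i, hi, e⟩ := (hr _).1 h
      obtain ⟨j, rfl, rfl⟩ := Option.map_eq_some_iff.1 e.symm
      exact (hr _).2 ⟨j, by omega, rfl⟩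
  obtain ⟨R, i1, i2, ξ, h1, h2, h3⟩ := model_of (act δ φ) A fA hA
  have ht : tm δ φ c = some t := (tm_iff hφ _ _).2 run
  refine ⟨R, i1, i2, ξ, h1, fun u u' h => h2 _ _ (act_rule hφ h), fun e => ?_, (h3 _).2 fun x => ?_⟩
  · refine (h3 _).1 e (.inl (.inl true, .inl true)) ?_
    rw [act_cw_fresh, ht]
    exact (hr _).2 ⟨t, le_rfl, rfl⟩
  · rw [List.foldl_append]
    rcases act_cw_cases (δ := δ) (φ := φ) c x with e | e
    · rw [e, ht]
      intro h
      obtain ⟨i, hi, e⟩ := (hr _).1 h
      have : i = t + 1 := Option.some.inj e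
      omega
    · rw [e]; exact h0

end Pool.Agent.Lib.MP_fed0c4_co.U
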