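import Pool.Agent.Lib.MP_fed0c4_co.U.SteinA

/-! The matrix model and the monoid read from a group in which the short relations hold.
Plan. `K = (Matrix (Fin 5) (Fin 5) R)ˣ`, `e i j t = 1 + Matrix.single i j t` (an involution for
`i ≠ j`), `p (i, j, o) = e i (spare i j) (o.elim 1 ξ)`, `q (i, j, o) = e (spare i j) j 1` for
`i ≠ j` and `p = q = 1` for `i = j`; then `(p q)^2 = e i j (o.elim 1 ξ)` and
`E k i j u = e i j (wv ξ u)` by induction. Equalities of short words pass to `κ` (write `A = B` as
`A ++ B.reverse`, `wv_reverse`, `length_Ew`), which gives `St κ 1` and `hone`, hence `St κ n` for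
all `n`. `S` is the quotient of `FreeMonoid Λ` by the congruence
`∀ i j, i ≠ j → E κ i j u = E κ i j v` (use `mu` with a spare index on both sides),
`F u i j = if i = j then 1 else E κ i j u`, `Z a = ∀ i j, F a i j = 1`. -/

namespace Pool.Agent.Lib.MP_fed0c4_co.U

section mat

variable {R : Type} [Ring R] (h2 : ∀ x : R, x + x = 0)

include h2 in
theorem mat_two (A : Matrix (Fin 5) (Fin 5) R) : A + A = 0 := by
  ext a b
  exact h2 _

include h2 in
theorem em_sq {i j : Fin 5} (h : i ≠ j) (t : R) :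
    (1 + Matrix.single i j t : Matrix (Fin 5) (Fin 5) R) * (1 + Matrix.single i j t) = 1 := by
  have h0 : (Matrix.single i j t : Matrix (Fin 5) (Fin 5) R) * Matrix.single i j t = 0 :=
    Matrix.single_mul_single_of_ne _ _ _ _ h.symm _
  rw [add_mul, one_mul, mul_add, mul_one, h0, add_zero, add_assoc, mat_two h2, add_zero]

/-- The elementary matrix as a unit. -/
def eu (i j : Fin 5) (t : R) : (Matrix (Fin 5) (Fin 5) R)ˣ :=
  if h : i ≠ j then ⟨1 + Matrix.single i j t, 1 + Matrix.single i j t, em_sq h2 h t, em_sq h2 h t⟩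
  else 1

theorem eu_val {i j : Fin 5} (h : i ≠ j) (t : R) :
    (eu h2 i j t : Matrix (Fin 5) (Fin 5) R) = 1 + Matrix.single i j t := by
  simp only [eu, dif_pos h]

theorem eu_sq (i j : Fin 5) (t : R) : eu h2 i j t * eu h2 i j t = 1 := by
  by_cases h : i ≠ j
  · exact Units.ext (by rw [Units.val_mul, eu_val h2 h, em_sq h2 h, Units.val_one])
  · simp only [eu, dif_neg h, mul_one]

theorem eu_eq_one {i j : Fin 5} (h : i ≠ j) (t : R) : eu h2 i j t = 1 ↔ t = 0 := by
  rw [Units.ext_iff, eu_val h2 h, Units.val_one, add_eq_left]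
  constructor
  · intro h0
    have := congrFun (congrFun h0 i) j
    simpa using this
  · rintro rfl
    simp

theorem eu_comm {i j k l : Fin 5} (h1 : i ≠ j) (h3 : k ≠ l) (h4 : j ≠ k) (h5 : i ≠ l) (s t : R) :
    Commute (eu h2 i j s) (eu h2 k l t) := by
  have a1 : (Matrix.single i j s : Matrix (Fin 5) (Fin 5) R) * Matrix.single k l t = 0 :=
    Matrix.single_mul_single_of_ne _ _ _ _ h4 _
  have a2 : (Matrix.single k l t : Matrix (Fin 5) (Fin 5) R) * Matrix.single i j s = 0 :=
    Matrix.single_mul_single_of_ne _ _ _ _ h5.symm _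
  refine Units.ext ?_
  rw [Units.val_mul, Units.val_mul, eu_val h2 h1, eu_val h2 h3]
  simp only [add_mul, mul_add, one_mul, mul_one, a1, a2, add_zero]
  abel

theorem eu_mu {i j l : Fin 5} (h1 : i ≠ j) (h3 : j ≠ l) (h4 : i ≠ l) (s t : R) :
    (eu h2 i j s * eu h2 j l t) ^ 2 = eu h2 i l (s * t) := by
  have z : ∀ (a b c d : Fin 5) (x y : R), b ≠ c →
      (Matrix.single a b x : Matrix (Fin 5) (Fin 5) R) * Matrix.single c d y = 0 :=
    fun a b c d x y h => Matrix.single_mul_single_of_ne _ _ _ _ h _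
  have m : (Matrix.single i j s : Matrix (Fin 5) (Fin 5) R) * Matrix.single j l t =
      Matrix.single i l (s * t) := Matrix.single_mul_single_same _ _ _ _ _
  refine Units.ext ?_
  rw [pow_two, Units.val_mul, Units.val_mul, eu_val h2 h1, eu_val h2 h3, eu_val h2 h4]
  have b1 := z i j i j s s h1.symm
  have b2 := z j l j l t t h3.symm
  have b3 := z j l i j t s h4.symm
  have b4 := z i j i l s (s * t) h1.symm
  have b5 := z i l i j (s * t) s h4.symm
  have b6 := z j l i l t (s * t) h4.symm
  have b7 := z i l j l (s * t) t h3.symm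
  have b8 := z i l i l (s * t) (s * t) h4.symm
  have t1 := mat_two h2 (Matrix.single i j s)
  have t2 := mat_two h2 (Matrix.single j l t)
  have t3 := mat_two h2 (Matrix.single i l (s * t))
  generalize (Matrix.single i l (s * t) : Matrix (Fin 5) (Fin 5) R) = C at *
  generalize (Matrix.single i j s : Matrix (Fin 5) (Fin 5) R) = A at *
  generalize (Matrix.single j l t : Matrix (Fin 5) (Fin 5) R) = B at *
  have e1 : (1 + A) * (1 + B) = 1 + A + B + C := by
    rw [add_mul, one_mul, mul_add, mul_one, m]; abel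
  rw [e1]
  simp only [add_mul, mul_add, one_mul, mul_one, m, b1, b2, b3, b4, b5, b6, b7, b8, add_zero]
  calc _ = 1 + C + (A + A) + (B + B) + (C + C) := by abel
    _ = 1 + C := by rw [t1, t2, t3]; simp

variable {Λ : Type} (ξ : Λ → R)

/-- The first involution of a generator. -/
def pm (g : Gen Λ) : (Matrix (Fin 5) (Fin 5) R)ˣ :=
  if g.1 ≠ g.2.1 then eu h2 g.1 (spare g.1 g.2.1) (g.2.2.elim 1 ξ) else 1

/-- The second involution of a generator. -/
def qm (g : Gen Λ) : (Matrix (Fin 5) (Fin 5) R)ˣ :=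
  if g.1 ≠ g.2.1 then eu h2 (spare g.1 g.2.1) g.2.1 1 else 1

theorem ym_eq {i j : Fin 5} (h : i ≠ j) (o : Option Λ) :
    (pm h2 ξ (i, j, o) * qm h2 (i, j, o)) ^ 2 = eu h2 i j (o.elim 1 ξ) := by
  simp only [pm, qm, if_pos h]
  rw [eu_mu h2 (spare_ne i j).1.symm (spare_ne i j).2 h, mul_one]

theorem ym_sq (g : Gen Λ) : (pm h2 ξ g * qm h2 g) ^ 2 * (pm h2 ξ g * qm h2 g) ^ 2 = 1 := by
  obtain ⟨i, j, o⟩ := g
  by_cases h : i ≠ j
  · rw [ym_eq h2 ξ h, eu_sq]
  · simp only [pm, qm, if_neg h, mul_one, one_pow]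

theorem E_model (u : List Λ) : ∀ i j : Fin 5, i ≠ j →
    E (fun g => (pm h2 ξ g * qm h2 g) ^ 2) i j u = eu h2 i j (wv ξ u) := by
  induction u with
  | nil =>
    intro i j h
    simp only [E, Ew, wv_cons, wv_nil, mul_one]
    exact ym_eq h2 ξ h none
  | cons a u ih =>
    intro i j h
    have h1 := ih (spare i j) j (spare_ne i j).2
    have h3 := ym_eq h2 ξ (spare_ne i j).1.symm (some a)
    simp only [E] at h1
    simp only [E, Ew, wv_append, wv_cons, h1, h3, Option.elim]
    rw [← pow_two, eu_mu h2 (spare_ne i j).1.symm (spare_ne i j).2 h]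

end mat

theorem transfer {J P K : Type} [Group P] [Group K] {κ : J → P} {y : J → K} {N : ℕ} (hN : 2 ≤ N)
    (hy : ∀ j, y j * y j = 1) (h : ∀ w : List J, w.length ≤ N → (wv κ w = 1 ↔ wv y w = 1))
    (A B : List J) (hl : A.length + B.length ≤ N) : wv κ A = wv κ B ↔ wv y A = wv y B := by
  have hκ : ∀ j, κ j * κ j = 1 := fun j => by
    have := (h [j, j] hN).2 (by simpa using hy j)
    simpa using this
  have := h (A ++ B.reverse) (by simpa using hl)
  rwa [wv_append, wv_append, wv_reverse κ hκ, wv_reverse y hy, mul_inv_eq_one,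
    mul_inv_eq_one] at this

theorem length_Ew_le {Λ : Type} {u : List Λ} {n : ℕ} (h : u.length ≤ n) (i j : Fin 5) :
    (Ew i j u).length + 2 ≤ 3 * 2 ^ n := by
  rw [length_Ew]
  exact Nat.mul_le_mul_left _ (Nat.pow_le_pow_right (by norm_num) h)

/-- Words with the same elementary values at all places. -/
def stCon {Λ P : Type} [Group P] {κ : Gen Λ → P} (h : ∀ n, St κ n) : Con (FreeMonoid Λ) where
  r u v := ∀ i j, i ≠ j → E κ i j u.toList = E κ i j v.toList
  iseqv := ⟨fun _ _ _ _ => rfl, fun a i j c => (a i j c).symm,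
    fun a b i j c => (a i j c).trans (b i j c)⟩
  mul' := by
    intro u u' v v' a b i j c
    have s1 := (spare_ne i j).1.symm
    have s2 := (spare_ne i j).2
    rw [FreeMonoid.toList_mul, FreeMonoid.toList_mul, ← (h _).mu i _ j _ _ s1 s2 c le_rfl,
      ← (h _).mu i _ j _ _ s1 s2 c le_rfl, a _ _ s1, b _ _ s2]

theorem exists_stein (Λ R : Type) [Ring R] [Finite R] (h2 : ∀ x : R, x + x = 0) (ξ : Λ → R) :
    ∃ (K : Type) (_ : Group K) (_ : Finite K) (p q : Gen Λ → K), (∀ j, p j * p j = 1) ∧
      (∀ j, q j * q j = 1) ∧ (∀ j, (p j * q j) ^ 4 = 1) ∧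
      ∀ (P : Type) [Group P] (κ : Gen Λ → P) (n : ℕ), 2 ≤ n →
        (∀ w : List (Gen Λ), w.length ≤ 6 * 2 ^ n →
          (wv κ w = 1 ↔ wv (fun j => (p j * q j) ^ 2) w = 1)) →
        ∃ (S : Type) (_ : Monoid S) (η : Λ → S) (Z : S → Prop) (F : S → Fin 5 → Fin 5 → P),
          Function.Injective F ∧
          (∀ u u' : List Λ, u.length ≤ n → u'.length ≤ n → wv ξ u = wv ξ u' → wv η u = wv η u') ∧
          (∀ u : List Λ, u.length ≤ n → (Z (wv η u) ↔ wv ξ u = 0)) ∧
          ∀ a b, Z a → Z (a * b) := by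
  refine ⟨(Matrix (Fin 5) (Fin 5) R)ˣ, inferInstance, inferInstance, pm h2 ξ, qm h2, fun g => ?_,
    fun g => ?_, fun g => ?_, fun P _ κ n hn hw => ?_⟩
  · unfold pm
    split_ifs
    · exact eu_sq h2 _ _ _
    · exact mul_one _
  · unfold qm
    split_ifs
    · exact eu_sq h2 _ _ _
    · exact mul_one _
  · rw [show 4 = 2 + 2 from rfl, pow_add]
    exact ym_sq h2 ξ g
  have h4 : 4 ≤ 2 ^ n := Nat.pow_le_pow_right (n := 2) (by norm_num) hn
  have tr := transfer (by omega) (ym_sq h2 ξ) hw
  have md := E_model h2 ξ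
  simp only [E] at md
  have s1 : St κ 1 := by
    refine ⟨fun i j u c a => ?_, fun i j k l u v c1 c2 c3 c4 a b => ?_,
      fun i j l u v c1 c2 c3 a => ?_⟩
    · have l1 := length_Ew_le a i j
      have := (tr (Ew i j u ++ Ew i j u) []
        (by simp only [List.length_append, List.length_nil]; omega)).2
        (by rw [wv_append, md u i j c, eu_sq, wv_nil])
      rwa [wv_append, wv_nil] at this
    · have l1 := length_Ew_le a i j
      have l2 := length_Ew_le b k l
      have := (tr (Ew i j u ++ Ew k l v) (Ew k l v ++ Ew i j u)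
        (by simp only [List.length_append]; omega)).2
        (by rw [wv_append, wv_append, md u i j c1, md v k l c2]; exact eu_comm h2 c1 c2 c3 c4 _ _)
      rwa [wv_append, wv_append] at this
    · have l1 := length_Ew_le (u := u) (n := 1) (by omega) i j
      have l2 := length_Ew_le (u := v) (n := 1) (by omega) j l
      have l3 := length_Ew_le (u := u ++ v) (n := 1) (by rwa [List.length_append]) i l
      have := (tr ((Ew i j u ++ Ew j l v) ++ (Ew i j u ++ Ew j l v)) (Ew i l (u ++ v))
        (by simp only [List.length_append]; omega)).2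
        (by rw [wv_append, wv_append, md u i j c1, md v j l c2, md _ i l c3, ← pow_two,
          eu_mu h2 c1 c2 c3, wv_append])
      rwa [wv_append, wv_append, ← pow_two] at this
  have hone : ∀ i j a, i ≠ j → κ (i, j, some a) = E κ i j [a] := fun i j a c => by
    have l1 := length_Ew_le (u := [a]) (n := 1) le_rfl i j
    have := (tr [(i, j, some a)] (Ew i j [a]) (by simp only [List.length_singleton]; omega)).2
      (by rw [md _ i j c, wv_cons, wv_nil, mul_one, ym_eq h2 ξ c, wv_cons, wv_nil, mul_one]; rfl)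
    rwa [wv_cons, wv_nil, mul_one] at this
  have sa : ∀ m, St κ m := St.all s1 hone
  let c := stCon sa
  let F : c.Quotient → Fin 5 → Fin 5 → P := fun a => Con.liftOn a
    (fun u i j => if i = j then 1 else E κ i j u.toList) (fun u v huv => by
      funext i j
      split_ifs with hij
      · rfl
      · exact huv i j hij)
  have hF : ∀ (u : FreeMonoid Λ) i j, i ≠ j → F (u : c.Quotient) i j = E κ i j u.toList :=
    fun u i j hij => if_neg hij
  have hF' : ∀ (u : FreeMonoid Λ) i, F (u : c.Quotient) i i = 1 := fun u i => if_pos rfl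
  have hη : ∀ u : List Λ, wv (fun a => ((FreeMonoid.of a : FreeMonoid Λ) : c.Quotient)) u =
      ((FreeMonoid.ofList u : FreeMonoid Λ) : c.Quotient) := fun u => by
    induction u with
    | nil => rfl
    | cons a u ih => rw [wv_cons, ih]; rfl
  have hZ : ∀ u : FreeMonoid Λ, (∀ i j, F (u : c.Quotient) i j = 1) ↔
      ∀ i j, i ≠ j → E κ i j u.toList = 1 := fun u =>
    ⟨fun a i j hij => (hF u i j hij).symm.trans (a i j), fun a i j => by
      by_cases hij : i = j
      · rw [hij, hF']
      · rw [hF u i j hij, a i j hij]⟩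
  refine ⟨c.Quotient, inferInstance, fun a => ((FreeMonoid.of a : FreeMonoid Λ) : c.Quotient),
    fun a => ∀ i j, F a i j = 1, F, fun a b => ?_, fun u u' a b e => ?_, fun u a => ?_,
    fun a b => ?_⟩
  · refine Con.induction_on₂ a b fun u v e => c.eq.2 fun i j hij => ?_
    rw [← hF u i j hij, ← hF v i j hij, e]
  · rw [hη, hη]
    refine c.eq.2 fun i j hij => ?_
    have l1 := length_Ew_le a i j
    have l2 := length_Ew_le b i j
    exact (tr (Ew i j u) (Ew i j u') (by omega)).2 (by rw [md u i j hij, md u' i j hij, e])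
  · rw [hη]
    refine (hZ _).trans ?_
    have k : ∀ i j, i ≠ j → (E κ i j u = 1 ↔ wv ξ u = 0) := fun i j hij => by
      have l1 := length_Ew_le a i j
      rw [← eu_eq_one h2 hij, ← md u i j hij]
      exact hw _ (by omega)
    exact ⟨fun z => (k 0 1 (by decide)).1 (z 0 1 (by decide)), fun z i j hij => (k i j hij).2 z⟩
  · refine Con.induction_on₂ a b fun u v => ?_
    rw [← Con.coe_mul]
    intro z0
    have z := (hZ u).1 z0
    refine (hZ _).2 fun i j hij => ?_
    have t1 := (spare_ne i j).1.symm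
    have t2 := (spare_ne i j).2
    rw [FreeMonoid.toList_mul, ← (sa _).mu i _ j _ _ t1 t2 hij le_rfl, z _ _ t1, one_mul, pow_two]
    exact (sa _).sq _ _ _ t2 le_rfl

end Pool.Agent.Lib.MP_fed0c4_co.U
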