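import Pool.Agent.Lib.MP_fed0c4_co.U.Defs

/-! In a monoid that satisfies the rules, the powers of the clock are distinct up to the running
time. Plan: one step gives `wv η (cw c) = wv η (cw c1) * η ck` (left and right stack letters
commute); so `cw c = cw c_i * ck ^ i`; if `ck ^ i = ck ^ (i + p)` with `i ≤ t`, `p ≥ 1`, then
`cw c = cw c * ck ^ p` is null. -/

namespace Pool.Agent.Lib.MP_fed0c4_co.U

/-- Value of one stack. -/
def stk {Q Γ S : Type} [Monoid S] (η : Let Q Γ → S) (b : Bool) (l : List Γ) : S :=
  wv η (pu b none :: l.reverse.map fun x => pu b (some x))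

theorem stk_nil {Q Γ S : Type} [Monoid S] (η : Let Q Γ → S) (b : Bool) :
    stk η b ([] : List Γ) = η (pu b none) := by simp [stk]

theorem stk_cons {Q Γ S : Type} [Monoid S] (η : Let Q Γ → S) (b : Bool) (a : Γ) (l : List Γ) :
    stk η b (a :: l) = stk η b l * η (pu b (some a)) := by simp [stk, mul_assoc]

theorem wv_cw {Q Γ S : Type} [Monoid S] (η : Let Q Γ → S) (q : Q) (a : Γ) (l r : List Γ) :
    wv η (cw (q, a, l, r)) = stk η false l * stk η true r * η (hd q a) := by
  simp only [cw, wv_append, stk, wv_cons, wv_nil, mul_one]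

theorem comm_stk {Q Γ S : Type} [Inhabited Γ] [Monoid S] {δ : Tab Q Γ} (η : Let Q Γ → S)
    (hr : ∀ u u', Rule δ u u' → wv η u = wv η u') (o : Option Γ) (r : List Γ) :
    Commute (η (pu false o)) (stk η true r) := by
  have h : ∀ o' : Option Γ, Commute (η (pu false o)) (η (pu true o')) := fun o' => by
    have := hr _ _ (Rule.comm o o')
    simpa [Commute, SemiconjBy] using this
  induction r with
  | nil => rw [stk_nil]; exact h none
  | cons a r ih => rw [stk_cons]; exact ih.mul_right (h _)

theorem step_eq {Q Γ S : Type} [Inhabited Γ] [Monoid S] {δ : Tab Q Γ} (η : Let Q Γ → S)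
    (hr : ∀ u u', Rule δ u u' → wv η u = wv η u') {c c1 : Cfg Q Γ} (h : rstep δ c = some c1) :
    wv η (cw c) = wv η (cw c1) * η ck := by
  obtain ⟨q, a, l, r⟩ := c
  obtain ⟨⟨q', x⟩, hx, rfl⟩ := Option.map_eq_some_iff.1 h
  have hc := comm_stk η hr
  rcases x with d | b
  · cases d with
    | true =>
      cases r with
      | nil =>
        have e := hr _ _ (Rule.move0 hx)
        have k := (hc (some a) []).eq
        simp only [wv_cons, wv_nil, mul_one, Bool.not_true, stk_nil] at e k
        simp only [app, wv_cw, stk_cons, stk_nil, List.headI, List.tail, mul_assoc]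
        rw [e, ← mul_assoc (η (pu true none)), ← k, mul_assoc]
      | cons c r =>
        have e := hr _ _ (Rule.move c hx)
        have k := (hc (some a) r).eq
        simp only [wv_cons, wv_nil, mul_one, Bool.not_true] at e
        simp only [app, wv_cw, stk_cons, List.headI, List.tail, mul_assoc]
        rw [e, ← mul_assoc (stk η true r), ← k, mul_assoc]
    | false =>
      cases l with
      | nil =>
        have e := hr _ _ (Rule.move0 hx)
        have k := (hc none r).eq
        simp only [wv_cons, wv_nil, mul_one, Bool.not_false] at e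
        simp only [app, wv_cw, stk_cons, stk_nil, List.headI, List.tail, mul_assoc]
        rw [← mul_assoc (η (pu false none)), k, mul_assoc, e, ← mul_assoc (stk η true r), ← k,
          mul_assoc]
      | cons c l =>
        have e := hr _ _ (Rule.move c hx)
        have k := (hc (some c) r).eq
        simp only [wv_cons, wv_nil, mul_one, Bool.not_false] at e
        simp only [app, wv_cw, stk_cons, List.headI, List.tail, mul_assoc]
        rw [← mul_assoc (η (pu false (some c))), k, mul_assoc, e]
  · have e := hr _ _ (Rule.write hx)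
    simp only [wv_cons, wv_nil, mul_one] at e
    simp only [app, wv_cw, mul_assoc]
    rw [e]

theorem run_eq {Q Γ S : Type} [Inhabited Γ] [Monoid S] {δ : Tab Q Γ} (η : Let Q Γ → S)
    (hr : ∀ u u', Rule δ u u' → wv η u = wv η u') {φ : Cfg Q Γ} :
    ∀ (i t : ℕ) (c : Cfg Q Γ), Runs δ t c φ → i ≤ t → ∃ w, wv η (cw c) = w * η ck ^ i := by
  intro i
  induction i with
  | zero => intro t c _ _; exact ⟨_, by rw [pow_zero, mul_one]⟩
  | succ i ih =>
    intro t c run hi
    cases t with
    | zero => omega
    | succ t =>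
      obtain ⟨c1, h1, run1⟩ := run
      obtain ⟨w, hw⟩ := ih t c1 run1 (by omega)
      exact ⟨w, by rw [step_eq η hr h1, hw, pow_succ, mul_assoc]⟩

theorem time_bound {Q Γ S : Type} [Inhabited Γ] [Monoid S] {δ : Tab Q Γ} (η : Let Q Γ → S)
    (hr : ∀ u u', Rule δ u u' → wv η u = wv η u') (Z : S → Prop) (hZ : ∀ a b, Z a → Z (a * b))
    {t : ℕ} {c φ : Cfg Q Γ} (run : Runs δ t c φ) (h0 : ¬ Z (wv η (cw c)))
    (h1 : Z (wv η (cw c ++ [ck]))) : Function.Injective fun i : Fin (t + 1) => η ck ^ (i : ℕ) := by
  have key : ∀ i j : ℕ, i < j → i ≤ t → η ck ^ i ≠ η ck ^ j := by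
    intro i j hij hi e
    obtain ⟨w, hw⟩ := run_eq η hr i t c run hi
    obtain ⟨p, rfl⟩ := Nat.exists_eq_add_of_lt hij
    apply h0
    have : wv η (cw c) = wv η (cw c ++ [ck]) * η ck ^ p := by
      rw [wv_append, wv_cons, wv_nil, mul_one, hw]
      conv_lhs => rw [e]
      rw [add_assoc, pow_add, pow_succ', mul_assoc, mul_assoc]
    rw [this]
    exact hZ _ _ h1
  intro i j e
  have hi := i.2
  have hj := j.2
  apply Fin.ext
  rcases lt_trichotomy (i : ℕ) j with h | h | h
  · exact absurd e (key _ _ h (by omega))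
  · exact h
  · exact absurd e.symm (key _ _ h (by omega))

end Pool.Agent.Lib.MP_fed0c4_co.U
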