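import Pool.Agent.Lib.MP_fed0c4_co.U.Defs
import Pool.Agent.Lib.MP_038c09_al.Row

/-! For every computable `g` a machine that halts on the unary input `n` after at least `g n` steps.
Plan. Follow `exists_row`, `RowSim.exists_code`, `RowSim.ones`, `RowSim.trNat_ones` of
`Pool.Agent.Lib.MP_038c09_al.Row`: a `ToPartrec.Code` `c` with
`c.eval [ones n] = pure [ones (g n + n + 1)]`, then `PartrecToTM2.tr`, `TM2to1.tr`, `TM1to0.tr` with
finite support `S`; `Q = S`. The raw run on lists simulates `TM0.step` (`Tape.left = ListBlank.mk l`,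
`Tape.right = ListBlank.mk r`). By `TM1to0.tr_eval`, `TM2to1.tr_eval`, `PartrecToTM2.tr_eval` the
final `Tape.right₀` is not blank at position `g n + n + 1`, so the final `a :: r` has length at
least `g n + n + 2`, while `|l| + |r|` grows by at most one in each step. -/

namespace Pool.Agent.Lib.MP_fed0c4_co.U

open Turing

section Sim

variable {Γ Λ : Type} [Inhabited Γ] [Inhabited Λ] (M : TM0.Machine Γ Λ) (S : Finset Λ)

/-- An instruction in the form used by `app`. -/
def cvt {Γ : Type} : TM0.Stmt Γ → Bool ⊕ Γ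
  | .move .right => .inl true
  | .move .left => .inl false
  | .write b => .inr b

open scoped Classical in
/-- The table of the machine on its finite support. -/
noncomputable def tabOf : Tab S Γ := fun q a =>
  (M q a).bind fun x => if h : x.1 ∈ S then some (⟨x.1, h⟩, cvt x.2) else none

/-- The configuration with tape that a raw configuration represents. -/
def toC (c : Cfg S Γ) : TM0.Cfg Γ Λ :=
  ⟨c.1, ⟨c.2.1, ListBlank.mk c.2.2.1, ListBlank.mk c.2.2.2⟩⟩

variable {M S}

theorem rstep_none {c : Cfg S Γ} (h : TM0.step M (toC S c) = none) :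
    rstep (tabOf M S) c = none := by
  have h1 : M c.1 c.2.1 = none := Option.map_eq_none_iff.1 h
  simp [rstep, tabOf, h1]

theorem rstep_some (ss : TM0.Supports M (S : Set Λ)) {c : Cfg S Γ} {C : TM0.Cfg Γ Λ}
    (h : C ∈ TM0.step M (toC S c)) : ∃ c1, rstep (tabOf M S) c = some c1 ∧ toC S c1 = C ∧
      c1.2.2.1.length + c1.2.2.2.length ≤ c.2.2.1.length + c.2.2.2.length + 1 := by
  obtain ⟨q, a, l, r⟩ := c
  obtain ⟨⟨q', s⟩, hm, rfl⟩ := Option.map_eq_some_iff.1 h
  have hm' : M q a = some (q', s) := hm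
  have hq : q' ∈ S := ss.2 hm' q.2
  refine ⟨app a l r (⟨q', hq⟩, cvt s), by simp [rstep, tabOf, hm', hq], ?_, ?_⟩
  · rcases s with (_ | _) | b <;> simp [toC, cvt, app, Tape.move, Tape.write]
  · rcases s with (_ | _) | b <;> simp [cvt, app] <;> omega

theorem runs_of_reaches (ss : TM0.Supports M (S : Set Λ)) {C C' : TM0.Cfg Γ Λ}
    (h : StateTransition.Reaches (TM0.step M) C C') : ∀ c : Cfg S Γ, toC S c = C →
      ∃ t φ, Runs (tabOf M S) t c φ ∧ toC S φ = C' ∧
        φ.2.2.1.length + φ.2.2.2.length ≤ c.2.2.1.length + c.2.2.2.length + t := by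
  induction h using Relation.ReflTransGen.head_induction_on with
  | refl => exact fun c hc => ⟨0, c, rfl, hc, le_rfl⟩
  | head e _ ih =>
    rintro c rfl
    obtain ⟨c1, h1, h2, h3⟩ := rstep_some ss e
    obtain ⟨t, φ, h4, h5, h6⟩ := ih c1 h2
    exact ⟨t + 1, φ, ⟨c1, h1, h4⟩, h5, by omega⟩

theorem sim_long (ss : TM0.Supports M (S : Set Λ)) (a : Γ) (w : List Γ) {L : ListBlank Γ}
    (hL : L ∈ TM0.eval M (a :: w)) {N : ℕ} (hN : L.nth N ≠ default) :
    ∃ t φ, N ≤ w.length + t ∧ Runs (tabOf M S) t (⟨default, ss.1⟩, a, [], w) φ ∧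
      rstep (tabOf M S) φ = none := by
  obtain ⟨C, hC, rfl⟩ := (Part.mem_map_iff _).1 hL
  obtain ⟨h1, h2⟩ := StateTransition.mem_eval.1 hC
  obtain ⟨t, φ, h3, rfl, h4⟩ := runs_of_reaches ss h1 (⟨default, ss.1⟩, a, [], w) rfl
  refine ⟨t, φ, ?_, h3, rstep_none h2⟩
  by_contra h5
  apply hN
  change (ListBlank.mk (φ.2.1 :: φ.2.2.2)).nth N = default
  rw [ListBlank.nth_mk]
  apply List.getI_eq_default
  simp only [List.length_cons, List.length_nil] at h4 ⊢
  omega

end Sim

open Pool.Agent.Lib.MP_038c09_al.RowSim in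
theorem exists_code_ones (g : ℕ → ℕ) (hg : Computable g) :
    ∃ c : ToPartrec.Code, ∀ n : ℕ, c.eval [ones n] = Part.some [ones (g n + n)] := by
  have h1 : Primrec ones :=
    Primrec.nat_iterate Primrec.id (Primrec.const 0)
      (Primrec.nat_double_succ.comp Primrec.snd).to₂
  have h2 : Primrec fun m : ℕ => Nat.findGreatest (fun k => ones k = m) m :=
    Primrec.nat_findGreatest Primrec.id
      (PrimrecRel.comp₂ Primrec.eq (h1.comp Primrec.snd).to₂ Primrec.fst.to₂)
  have h3 : Computable fun m : ℕ => ones (g (Nat.findGreatest (fun k => ones k = m) m) +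
      Nat.findGreatest (fun k => ones k = m) m) :=
    h1.to_comp.comp (Primrec.nat_add.to_comp.comp (hg.comp h2.to_comp) h2.to_comp)
  obtain ⟨c, hc⟩ := ToPartrec.Code.exists_code (Nat.Partrec'.part_iff₁.2 h3.partrec)
  refine ⟨c, fun n => ?_⟩
  have h4 : Nat.findGreatest (fun k => ones k = ones n) (ones n) = n := by
    rw [Nat.findGreatest_eq_iff]
    refine ⟨ones_mono.le_apply, fun _ => rfl, fun k hk _ h => ?_⟩
    exact hk.ne' (ones_mono.injective h)
  have h5 := hc ⟨[ones n], rfl⟩
  change c.eval [ones n] = pure <$> Part.some (ones (g (Nat.findGreatest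
    (fun k => ones k = ones n) (ones n)) + Nat.findGreatest (fun k => ones k = ones n) (ones n)))
    at h5
  rw [h5, h4, Part.map_eq_map, Part.map_some]
  rfl

open Pool.Agent.Lib.MP_038c09_al.RowSim PartrecToTM2 in
theorem exists_machine (g : ℕ → ℕ) (hg : Computable g) :
    ∃ (Q Γ : Type) (_ : Fintype Q) (_ : Fintype Γ) (_ : Inhabited Γ) (δ : Tab Q Γ) (q0 : Q)
      (a0 a1 : Γ), ∀ n, ∃ t φ, g n ≤ t ∧ Runs δ t (q0, a0, [], List.replicate n a1) φ ∧
        rstep δ φ = none := by
  classical
  obtain ⟨c, hc⟩ := exists_code_ones g hg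
  let _ : Inhabited Λ' := ⟨trNormal c Cont'.halt⟩
  let _ : Fintype K' := ⟨{K'.main, K'.rev, K'.aux, K'.stack}, fun k => by cases k <;> simp⟩
  have s2 : TM2.Supports tr (codeSupp c Cont'.halt) := tr_supports c Cont'.halt
  have s0 := TM1to0.tr_supports _ (TM2to1.tr_supports tr s2)
  refine ⟨_, _, inferInstance, inferInstance, inferInstance, tabOf (TM1to0.tr (TM2to1.tr tr)) _,
    ⟨default, s0.1⟩, (true, Function.update (fun _ => none) K'.main (some Γ'.cons)),
    (false, Function.update (fun _ => none) K'.main (some Γ'.bit1)), fun n => ?_⟩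
  have h1 : TM2to1.trInit (Γ := fun _ : K' => Γ') K'.main (trList [ones n]) =
      (true, Function.update (fun _ => none) K'.main (some Γ'.cons)) ::
        List.replicate n (false, Function.update (fun _ => none) K'.main (some Γ'.bit1)) := by
    have h3 : (trList [ones n]).reverse = Γ'.cons :: List.replicate n Γ'.bit1 := by
      simp [trNat_ones]
    unfold TM2to1.trInit
    rw [h3]
    exact congrArg _ List.map_replicate
  have h2 : TM2.init (Γ := fun _ : K' => Γ') (Λ := Λ') (σ := Option Γ') K'.main (trList [ones n])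
      = init c [ones n] := by
    unfold TM2.init init
    congr 1
    funext k
    cases k <;> rfl
  have h3 : trList [ones (g n + n)] ∈ TM2.eval tr K'.main (trList [ones n]) := by
    refine (Part.mem_map_iff _).2 ⟨halt [ones (g n + n)], ?_, rfl⟩
    rw [h2, tr_eval, hc, Part.map_eq_map, Part.map_some]
    exact Part.mem_some _
  obtain ⟨L, hL⟩ := Part.dom_iff_mem.1
    ((TM2to1.tr_eval_dom tr K'.main (trList [ones n])).2 (Part.dom_iff_mem.2 ⟨_, h3⟩))
  obtain ⟨T, L', h4, h5, h6⟩ := TM2to1.tr_eval tr K'.main (trList [ones n]) hL h3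
  rw [h1, ← TM1to0.tr_eval] at hL
  have hN : L.nth (g n + n) ≠ default := by
    intro h7
    have h8 := TM2to1.addBottom_nth_snd L' (g n + n)
    rw [h4, h7] at h8
    have h9 := proj_map_nth K'.main L' (g n + n)
    rw [h5, h6, ← h8, ListBlank.nth_mk] at h9
    have h10 : ((trList [ones (g n + n)]).map some).reverse =
        some Γ'.cons :: List.replicate (g n + n) (some Γ'.bit1) := by
      simp [trNat_ones]
    rw [h10] at h9
    generalize g n + n = N at h9
    cases N with
    | zero => exact absurd h9 (by simp)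
    | succ N =>
      rw [List.getI_cons_succ, List.getI_eq_getElem _ (by simp), List.getElem_replicate] at h9
      cases h9
  obtain ⟨t, φ, h7, h8, h9⟩ := sim_long s0 _ _ hL hN
  have h10 : g n + n ≤ n + t := h7.trans (Nat.add_le_add_right List.length_replicate.le t)
  exact ⟨t, φ, by omega, h8, h9⟩

end Pool.Agent.Lib.MP_fed0c4_co.U
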