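import Pool.Agent.Lib.MP_fed0c4_co.U.Defs

/-! Embedding in a group generated by three involutions and a padding.
Plan. Number `J` by `Fintype.equivFin`, put `a j = 2 * 4 ^ (index j)`, `N = 16 * 4 ^ card J` (even,
larger than all sums of three positions). `al : ZMod N → K` is `p j` at `a j`, `q j` at `- a j`,
`1` elsewhere (so `al i * al i = 1`, and `al i = 1` for odd `i`). On `ZMod N × K × K`:
`x (i, g, h) = (i, al i * g, al (-i) * h)`, `y (i, g, h) = (-i, h, g)`, `z (i, g, h) = (1 - i, h, g)`.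
Then `T = z * y` is `i ↦ i + 1`, `x` commutes with `y`, `x_n = T ^ n * x * T⁻¹ ^ n` multiplies by
`al (i - n)`, `al (n - i)`, `z x z = x_1`, `(x * x_1) ^ 2 = 1` by parity, and
`(x_(-a j) * x_(a j)) ^ 2 = io ((p j * q j) ^ 2)` where `io k (i, g, h) = (i, k g, k h)` if `i = 0`
and `(i, g, h)` otherwise (an injective hom): if `i + a j` and `i - a j` are both positions then
`2 a j` is a difference of two positions, which forces `i = 0` (powers of 4); use
`(q p) ^ 2 = (p q) ^ 2` (from `(p q) ^ 4 = 1`). Second factor: the same three maps on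
`ZMod 3 × ZMod 2` (`x (i, t) = (i, t + if i = 0 then 1 else 0)`, `y (i, t) = (-i, t)`,
`z (i, t) = (1 - i, t)`), where all conjugates `x_n` commute (so the words for `J` are trivial) and
the non-relations of `Marked` are checked by `decide`. Third factor
`Multiplicative (Fin m → ZMod 2)` for the padding. `G` is the closure of the range in the product
(see `exists_cayley` in Main.lean for the passage to the closure). -/

namespace Pool.Agent.Lib.MP_fed0c4_co.U

namespace Wr

theorem exists_pos (J : Type) [Fintype J] :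
    ∃ (N : ℕ) (_ : NeZero N) (a : J → ℕ) (b : J × Bool → ZMod N), Function.Injective b ∧
      (∀ j, b (j, true) = a j) ∧ (∀ j, b (j, false) = -(a j : ZMod N)) ∧
      (∀ u u', b u - 1 ≠ b u') ∧ ∀ j u u' i, i + a j = b u → i - a j = b u' → i = 0 := by
  obtain ⟨B, e, h1, h3, h4⟩ : ∃ (B : ℕ) (e : J → ℕ), (∀ j, e j % 3 = 1) ∧ (∀ j, e j ≤ B) ∧
      ∀ j j', j = j' ∨ 4 * e j ≤ e j' ∨ 4 * e j' ≤ e j := by
    refine ⟨4 ^ Fintype.card J, fun j => 4 ^ (Fintype.equivFin J j : ℕ), fun j => ?_,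
      fun j => Nat.pow_le_pow_right (by norm_num) (Fintype.equivFin J j).2.le, fun j j' => ?_⟩
    · rw [Nat.pow_mod]
      simp
    · rcases lt_trichotomy (Fintype.equivFin J j : ℕ) (Fintype.equivFin J j') with h | h | h
      · refine Or.inr (Or.inl ?_)
        rw [← pow_succ']
        exact Nat.pow_le_pow_right (by norm_num) h
      · exact Or.inl ((Fintype.equivFin J).injective (Fin.ext h))
      · refine Or.inr (Or.inr ?_)
        rw [← pow_succ']
        exact Nat.pow_le_pow_right (by norm_num) h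
  have lift : ∀ v w : ℤ, |v - w| < 16 * (B : ℤ) + 16 →
      (v : ZMod (16 * B + 16)) = (w : ZMod (16 * B + 16)) → v = w := by
    intro v w h hv
    have h5 : ((v - w : ℤ) : ZMod (16 * B + 16)) = 0 := by rw [Int.cast_sub, hv, sub_self]
    have h6 := (ZMod.intCast_zmod_eq_zero_iff_dvd _ _).1 h5
    have h7 := Int.eq_zero_of_abs_lt_dvd h6 (by push_cast; exact h)
    omega
  let bz : J × Bool → ℤ := fun u => if u.2 = true then 2 * (e u.1 : ℤ) else -(2 * (e u.1 : ℤ))
  have hb : ∀ u, bz u = 2 * (e u.1 : ℤ) ∧ u.2 = true ∨ bz u = -(2 * (e u.1 : ℤ)) ∧ u.2 = false := by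
    rintro ⟨j, _ | _⟩ <;> simp [bz]
  refine ⟨16 * B + 16, ⟨by omega⟩, fun j => 2 * e j, fun u => (bz u : ZMod (16 * B + 16)),
    fun u u' h => ?_, fun j => by simp [bz], fun j => by simp [bz], fun u u' h => ?_,
    fun j u u' i k1 k2 => ?_⟩
  · have a1 := h1 u.1
    have a2 := h1 u'.1
    have a3 := h3 u.1
    have a4 := h3 u'.1
    have a5 := lift _ _ (by
      rw [abs_lt]
      rcases hb u with k | k <;> rcases hb u' with k' | k' <;> omega) h
    have a6 : u.1 = u'.1 := by
      rcases h4 u.1 u'.1 with k | k | k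
      · exact k
      · rcases hb u with k | k <;> rcases hb u' with k' | k' <;> omega
      · rcases hb u with k | k <;> rcases hb u' with k' | k' <;> omega
    refine Prod.ext a6 ?_
    rcases hb u with k | k <;> rcases hb u' with k' | k'
    · rw [k.2, k'.2]
    · omega
    · omega
    · rw [k.2, k'.2]
  · have a3 := h3 u.1
    have a4 := h3 u'.1
    have a5 := lift (bz u - 1) (bz u') (by
      rw [abs_lt]
      rcases hb u with k | k <;> rcases hb u' with k' | k' <;> omega) (by push_cast; exact h)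
    rcases hb u with k | k <;> rcases hb u' with k' | k' <;> omega
  · have a0 := h1 j
    have a1 := h1 u.1
    have a2 := h1 u'.1
    have a3 := h3 u.1
    have a4 := h3 u'.1
    have a7 := h3 j
    have a5 := lift (bz u) (bz u' + 4 * e j) (by
      rw [abs_lt]
      rcases hb u with k | k <;> rcases hb u' with k' | k' <;> omega) (by
        push_cast at k1 k2 ⊢
        linear_combination k2 - k1)
    have a6 : bz u = 2 * (e j : ℤ) := by
      have b1 : e u.1 = e j ∨ 4 * e u.1 ≤ e j ∨ 4 * e j ≤ e u.1 :=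
        (h4 u.1 j).imp (fun k => by rw [k]) id
      have b2 : e u'.1 = e j ∨ 4 * e u'.1 ≤ e j ∨ 4 * e j ≤ e u'.1 :=
        (h4 u'.1 j).imp (fun k => by rw [k]) id
      rcases hb u with k | k <;> rcases hb u' with k' | k' <;> omega
    dsimp only at k1
    rw [a6] at k1
    push_cast at k1
    linear_combination k1

/-- Multiplication of the two coordinates by a function of the position. -/
def D (N : ℕ) (K : Type) [Group K] : (ZMod N → K × K) →* Equiv.Perm (ZMod N × (K × K)) where
  toFun F := ⟨fun x => (x.1, F x.1 * x.2), fun x => (x.1, (F x.1)⁻¹ * x.2),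
    fun x => by simp, fun x => by simp⟩
  map_one' := Equiv.ext fun x => by simp
  map_mul' F F' := Equiv.ext fun x => by simp [mul_assoc]

theorem D_apply {N : ℕ} {K : Type} [Group K] (F : ZMod N → K × K) (x : ZMod N × (K × K)) :
    D N K F x = (x.1, F x.1 * x.2) := rfl

/-- A reflection of the positions that swaps the two coordinates. -/
def rf {N : ℕ} (K : Type) (c : ZMod N) : Equiv.Perm (ZMod N × (K × K)) :=
  Function.Involutive.toPerm (fun x => (c - x.1, x.2.swap)) fun x => by simp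

theorem rf_apply {N : ℕ} {K : Type} (c : ZMod N) (x : ZMod N × (K × K)) :
    rf K c x = (c - x.1, x.2.swap) := rfl

theorem rf_pow {N : ℕ} {K : Type} (c d : ZMod N) (n : ℕ) (x : ZMod N × (K × K)) :
    ((rf K c * rf K d) ^ n) x = (x.1 + n * (c - d), x.2) := by
  induction n with
  | zero => simp
  | succ n ih =>
    rw [pow_succ', Equiv.Perm.mul_apply, ih, Equiv.Perm.mul_apply, rf_apply, rf_apply]
    refine Prod.ext ?_ rfl
    push_cast
    ring

theorem rf_conj {N : ℕ} {K : Type} [Group K] (c d : ZMod N) (n : ℕ) (F : ZMod N → K × K) :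
    (rf K c * rf K d) ^ n * D N K F * (rf K d * rf K c) ^ n =
      D N K fun i => F (i + n * (d - c)) := by
  refine Equiv.ext fun x => ?_
  rw [Equiv.Perm.mul_apply, Equiv.Perm.mul_apply, rf_pow, D_apply, rf_pow, D_apply]
  refine Prod.ext ?_ rfl
  dsimp only
  ring

/-- A word repeated `n` times. -/
def rep (n : ℕ) (l : List (Fin 3)) : List (Fin 3) := (List.replicate n l).flatten

theorem wv_rep {K : Type} [Monoid K] (y : Fin 3 → K) (n : ℕ) (l : List (Fin 3)) :
    wv y (rep n l) = wv y l ^ n := by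
  induction n with
  | zero => simp [rep]
  | succ n ih =>
    rw [rep, List.replicate_succ, List.flatten_cons, wv_append, pow_succ']
    exact congrArg _ ih

/-- Half of the word attached to the position `n`. -/
def hw (n : ℕ) : List (Fin 3) :=
  (rep n [1, 2] ++ [0] ++ rep n [2, 1]) ++ (rep n [2, 1] ++ [0] ++ rep n [1, 2])

theorem wv_wd {K : Type} [Monoid K] (y : Fin 3 → K) (n : ℕ) : wv y (hw n ++ hw n) =
    (((y 1 * y 2) ^ n * y 0 * (y 2 * y 1) ^ n) * ((y 2 * y 1) ^ n * y 0 * (y 1 * y 2) ^ n)) ^ 2 := by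
  simp only [hw, wv_append, wv_rep, wv_cons, wv_nil, mul_one, sq]

theorem first {J K : Type} [Group K] {N : ℕ} (a : J → ℕ) (b : J × Bool → ZMod N)
    (hb : Function.Injective b) (hbt : ∀ j, b (j, true) = a j)
    (hbf : ∀ j, b (j, false) = -(a j : ZMod N)) (hpar : ∀ u u', b u - 1 ≠ b u')
    (hsid : ∀ j u u' i, i + a j = b u → i - a j = b u' → i = 0) (p q : J → K)
    (hp : ∀ j, p j * p j = 1) (hq : ∀ j, q j * q j = 1) (hpq : ∀ j, (p j * q j) ^ 4 = 1) :
    ∃ (s : Fin 3 → Equiv.Perm (ZMod N × (K × K))) (io : K →* Equiv.Perm (ZMod N × (K × K))),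
      (∀ i, s i * s i = 1) ∧ Commute (s 0) (s 1) ∧ (s 2 * s 0) ^ 4 = 1 ∧ Function.Injective io ∧
      ∀ j, wv s (hw (a j) ++ hw (a j)) = io ((p j * q j) ^ 2) := by
  classical
  obtain ⟨al, e1, e2⟩ : ∃ al : ZMod N → K,
      (∀ u, al (b u) = if u.2 = true then p u.1 else q u.1) ∧ ∀ i, (¬∃ u, b u = i) → al i = 1 :=
    ⟨Function.extend b (fun u => if u.2 = true then p u.1 else q u.1) fun _ => 1,
      fun u => hb.extend_apply _ _ u, fun i hi => Function.extend_apply' _ _ i hi⟩
  have e3 : ∀ i, al i * al i = 1 := by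
    intro i
    by_cases hi : ∃ u, b u = i
    · obtain ⟨u, rfl⟩ := hi
      rw [e1]
      split_ifs
      · exact hp _
      · exact hq _
    · rw [e2 i hi, one_mul]
  have e4 : ∀ i i', (∀ u u', b u = i → b u' = i' → False) → (al i * al i') ^ 2 = 1 := by
    intro i i' h
    by_cases hi : ∃ u, b u = i
    · obtain ⟨u, hu⟩ := hi
      rw [e2 i' fun ⟨u', hu'⟩ => h u u' hu hu', mul_one, sq, e3]
    · rw [e2 i hi, one_mul, sq, e3]
  let F : ZMod N → K × K := fun i => (al i, al (-i))
  refine ⟨![D N K F, rf K 0, rf K 1], (D N K).comp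
    ((MonoidHom.mulSingle (fun _ : ZMod N => K × K) 0).comp
      ((MonoidHom.id K).prod (MonoidHom.id K))), fun i => ?_, ?_, ?_, fun k k' h => ?_, fun j => ?_⟩
  · fin_cases i
    · show D N K F * D N K F = 1
      rw [← map_mul, ← map_one (D N K)]
      exact congrArg _ (funext fun i => Prod.ext (e3 _) (e3 _))
    · exact Equiv.ext fun x => by simp [rf_apply]
    · exact Equiv.ext fun x => by simp [rf_apply]
  · exact Equiv.ext fun x => by simp [rf_apply, D_apply, F]
  · show (rf K 1 * D N K F) ^ 4 = 1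
    have h : (rf K 1 * D N K F) ^ 2 = D N K ((fun i => F (i - 1)) * F) :=
      Equiv.ext fun x => by simp [sq, rf_apply, D_apply, F, mul_assoc]
    rw [show 4 = 2 * 2 from rfl, pow_mul, h, ← map_pow, ← map_one (D N K)]
    refine congrArg _ (funext fun i => Prod.ext (e4 _ _ fun u u' h1 h2 => hpar u' u ?_)
      (e4 _ _ fun u u' h1 h2 => hpar u u' ?_))
    · rw [h1, h2]
    · rw [h1, h2]
      ring
  · have h1 := congrArg (fun f : Equiv.Perm (ZMod N × (K × K)) => (f (0, 1)).2.1) h
    simpa [D_apply] using h1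
  · rw [wv_wd]
    show (((rf K 0 * rf K 1) ^ a j * D N K F * (rf K 1 * rf K 0) ^ a j) *
      ((rf K 1 * rf K 0) ^ a j * D N K F * (rf K 0 * rf K 1) ^ a j)) ^ 2 =
      D N K (Pi.mulSingle 0 ((p j * q j) ^ 2, (p j * q j) ^ 2))
    rw [rf_conj, rf_conj, ← map_mul, ← map_pow]
    refine congrArg _ (funext fun i => ?_)
    by_cases hi : i = 0
    · subst hi
      have k1 : al (a j) = p j := by rw [← hbt, e1]; rfl
      have k2 : al (-(a j : ZMod N)) = q j := by rw [← hbf, e1]; rfl
      have k3 : (q j * p j) ^ 2 = (p j * q j) ^ 2 := by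
        have k4 : q j * p j = (p j * q j)⁻¹ := by
          rw [mul_inv_rev, inv_eq_of_mul_eq_one_right (hp j), inv_eq_of_mul_eq_one_right (hq j)]
        rw [k4, inv_pow, inv_eq_iff_mul_eq_one, ← pow_add]
        exact hpq j
      rw [Pi.mulSingle_eq_same]
      refine Prod.ext ?_ ?_
      · simp [F, k1, k2]
      · simp [F, k1, k2, k3]
    · rw [Pi.mulSingle_eq_of_ne hi]
      refine Prod.ext (e4 _ _ fun u u' h1 h2 => hi (hsid j u u' i ?_ ?_))
        (e4 _ _ fun u u' h1 h2 => hi (neg_eq_zero.1 (hsid j u' u (-i) ?_ ?_)))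
      · rw [h1]; ring
      · rw [h2]; ring
      · rw [h2]; ring
      · rw [h1]; ring

/-- The second factor. -/
def s2 : Fin 3 → Equiv.Perm (Fin 6) :=
  ![Equiv.swap 0 3, Equiv.swap 1 2 * Equiv.swap 4 5, Equiv.swap 0 1 * Equiv.swap 3 4]

/-- The second factor with a trivial letter. -/
def s2o : Option (Fin 3) → Equiv.Perm (Fin 6)
  | none => 1
  | some a => s2 a

theorem s2_sq : ∀ a, s2 a * s2 a = 1 := by decide +kernel
theorem s2_ne : ∀ a, s2 a ≠ 1 := by decide +kernel
theorem s2_inj : ∀ a b, s2 a = s2 b → a = b := by decide +kernel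
theorem s2_comm : s2 0 * s2 1 = s2 1 * s2 0 := by decide +kernel
set_option synthInstance.maxSize 2048 in
theorem s2_four : ∀ (e i : Fin 3) (j l : Option (Fin 3)), i ≠ e → l ≠ some e →
    s2o l * (s2o j * (s2 i * s2 e)) = 1 → (e = 0 ∧ i = 1) ∨ (e = 1 ∧ i = 0) := by decide +kernel
theorem s2_oct : (s2 2 * s2 0) ^ 4 = 1 := by decide +kernel
theorem s2_noct : ∀ a b c : Fin 3, a ≠ 2 → b ≠ 2 → c ≠ 2 →
    s2 2 * s2 a * (s2 2 * s2 b * (s2 2 * s2 c * (s2 2 * s2 1))) ≠ 1 := by decide +kernel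

theorem s2_wd (n : ℕ) : wv s2 (hw n ++ hw n) = 1 := by
  have h1 : (s2 1 * s2 2) ^ 3 = 1 := by decide +kernel
  have h2 : (s2 2 * s2 1) ^ 3 = 1 := by decide +kernel
  have h3 : ∀ r : Fin 3, (((s2 1 * s2 2) ^ (r : ℕ) * s2 0 * (s2 2 * s2 1) ^ (r : ℕ)) *
      ((s2 2 * s2 1) ^ (r : ℕ) * s2 0 * (s2 1 * s2 2) ^ (r : ℕ))) ^ 2 = 1 := by decide +kernel
  rw [wv_wd, pow_eq_pow_mod n h1, pow_eq_pow_mod n h2]
  exact h3 ⟨n % 3, Nat.mod_lt _ (by norm_num)⟩

/-- The generators in the product of the three factors. -/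
def gen {P : Type} [Group P] (m : ℕ) (s : Fin 3 → P) :
    Fin 3 ⊕ Fin m → P × Equiv.Perm (Fin 6) × Multiplicative (Fin m → ZMod 2)
  | .inl a => (s a, s2 a, 1)
  | .inr j => (1, 1, Multiplicative.ofAdd (Pi.single j 1))

theorem wv_gen {P : Type} [Group P] (m : ℕ) (s : Fin 3 → P) (L : List (Fin 3)) :
    wv (fun a => gen m s (.inl a)) L = (wv s L, wv s2 L, 1) := by
  induction L with
  | nil => rfl
  | cons a L ih =>
    rw [wv_cons, ih, wv_cons, wv_cons]
    exact Prod.ext rfl (Prod.ext rfl (mul_one _))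

theorem gen_snd {P : Type} [Group P] (m : ℕ) (s : Fin 3 → P) (i : Fin 3 ⊕ Fin m) :
    (gen m s i).2.1 = s2o i.getLeft? := by
  cases i <;> rfl

theorem marked_gen {P : Type} [Group P] (m : ℕ) (s : Fin 3 → P) (h1 : ∀ i, s i * s i = 1)
    (h2 : Commute (s 0) (s 1)) (h3 : (s 2 * s 0) ^ 4 = 1) : Marked (gen m s) := by
  have hc : ∀ i j, Commute (gen m s i) (gen m s (.inr j)) := by
    rintro (a | j') j
    · exact Prod.ext (by simp [gen]) (Prod.ext (by simp [gen]) (mul_comm _ _))
    · exact Prod.ext rfl (Prod.ext rfl (mul_comm _ _))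
  have h01 : Commute (gen m s (.inl 0)) (gen m s (.inl 1)) :=
    Prod.ext h2 (Prod.ext s2_comm rfl)
  refine ⟨?_, ?_, ?_, ?_, ?_, ?_, ?_⟩
  · rintro (a | j)
    · exact Prod.ext (h1 a) (Prod.ext (s2_sq a) (mul_one _))
    · refine Prod.ext (mul_one _) (Prod.ext (mul_one _) ?_)
      show Multiplicative.ofAdd ((Pi.single j 1 : Fin m → ZMod 2) + Pi.single j 1) =
        Multiplicative.ofAdd 0
      rw [← Pi.single_add, show (1 + 1 : ZMod 2) = 0 from rfl, Pi.single_zero]
  · rintro (a | j) h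
    · exact s2_ne a (congrArg (fun g => g.2.1) h)
    · have h4 : (Pi.single j 1 : Fin m → ZMod 2) = 0 := congrArg (fun g => g.2.2.toAdd) h
      simpa using congrFun h4 j
  · rintro (a | j) (a' | j') h
    · rw [s2_inj a a' (congrArg (fun g => g.2.1) h)]
    · exact absurd (congrArg (fun g => g.2.1) h) (s2_ne a)
    · exact absurd (congrArg (fun g => g.2.1) h).symm (s2_ne a')
    · have h4 : (Pi.single j 1 : Fin m → ZMod 2) = Pi.single j' 1 :=
        congrArg (fun g => g.2.2.toAdd) h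
      by_contra hne
      have h5 : j ≠ j' := fun k => hne (congrArg _ k)
      have h6 := congrFun h4 j
      rw [Pi.single_eq_same, Pi.single_eq_of_ne h5] at h6
      exact one_ne_zero h6
  · rintro (a | j) (a' | j') h
    · rcases h with h | h | ⟨k1, k2⟩ | ⟨k1, k2⟩
      · simp at h
      · simp at h
      · rw [k1, k2]; exact h01
      · rw [k1, k2]; exact h01.symm
    · exact hc _ _
    · exact (hc _ _).symm
    · exact hc _ _
  · rintro (e | e) (i | i) j l k1 k2 h
    · have h4 : (gen m s l).2.1 * ((gen m s j).2.1 * (s2 i * s2 e)) = 1 :=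
        congrArg (fun g => g.2.1) h
      rw [gen_snd, gen_snd] at h4
      rcases s2_four e i _ _ (fun k => k1 (congrArg _ k))
        (fun k => k2 (Sum.getLeft?_eq_some_iff.1 k)) h4 with ⟨rfl, rfl⟩ | ⟨rfl, rfl⟩
      · exact Or.inr (Or.inr (Or.inl ⟨rfl, rfl⟩))
      · exact Or.inr (Or.inr (Or.inr ⟨rfl, rfl⟩))
    · exact Or.inr (Or.inl rfl)
    · exact Or.inl rfl
    · exact Or.inl rfl
  · exact Prod.ext h3 (Prod.ext s2_oct (by simp [gen]))
  · intro a b c ha hb hc h
    exact s2_noct a b c ha hb hc (congrArg (fun g => g.2.1) h)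

theorem marked_of_inj {G H : Type} [Group G] [Group H] {m : ℕ} (f : G →* H)
    (hf : Function.Injective f) (s : Fin 3 ⊕ Fin m → G) (h : Marked fun i => f (s i)) :
    Marked s where
  sq i := hf (by rw [map_mul, map_one]; exact h.sq i)
  ne i k := h.ne i (by rw [k, map_one])
  inj i j k := h.inj (congrArg f k)
  comm e i k := hf (by rw [map_mul, map_mul]; exact h.comm e i k)
  four e i j l k1 k2 k := h.four e i j l k1 k2 (by
    rw [← map_mul, ← map_mul, ← map_mul, k, map_one])
  oct := hf (by rw [map_pow, map_mul, map_one]; exact h.oct)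
  noct a b c ha hb hc k := h.noct a b c ha hb hc (by
    simp only [← map_mul]
    rw [k, map_one])

end Wr

theorem exists_marked (J : Type) [Fintype J] : ∃ c : ℕ, ∀ (m : ℕ) (K : Type) [Group K] [Finite K]
    (p q : J → K), (∀ j, p j * p j = 1) → (∀ j, q j * q j = 1) → (∀ j, (p j * q j) ^ 4 = 1) →
    ∃ (G : Type) (_ : Group G) (_ : Finite G) (s : Fin 3 ⊕ Fin m → G), Marked s ∧
      Subgroup.closure (Set.range s) = ⊤ ∧ ∃ ω : J → List (Fin 3), (∀ j, (ω j).length ≤ c) ∧
        ∀ w : List J, wv (fun a => s (.inl a)) (w.flatMap ω) = 1 ↔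
          wv (fun j => (p j * q j) ^ 2) w = 1 := by
  obtain ⟨N, hN, a, b, hb, hbt, hbf, hpar, hsid⟩ := Wr.exists_pos J
  refine ⟨∑ j, (Wr.hw (a j) ++ Wr.hw (a j)).length, fun m K _ _ p q hp hq hpq => ?_⟩
  obtain ⟨s, io, e1, e2, e3, e4, e5⟩ := Wr.first a b hb hbt hbf hpar hsid p q hp hq hpq
  let G := Subgroup.closure (Set.range (Wr.gen m s))
  let t : Fin 3 ⊕ Fin m → G := fun i => ⟨Wr.gen m s i, Subgroup.subset_closure ⟨i, rfl⟩⟩
  refine ⟨G, inferInstance, inferInstance, t,
    Wr.marked_of_inj G.subtype G.subtype_injective t (Wr.marked_gen m s e1 e2 e3), ?_,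
    fun j => Wr.hw (a j) ++ Wr.hw (a j), fun j => Finset.single_le_sum
      (f := fun j => (Wr.hw (a j) ++ Wr.hw (a j)).length) (fun _ _ => Nat.zero_le _)
      (Finset.mem_univ j), fun w => ?_⟩
  · have : Set.range t = G.subtype ⁻¹' (Set.range (Wr.gen m s)) := by
      ext g
      simp only [Set.mem_range, Set.mem_preimage]
      constructor
      · rintro ⟨i, rfl⟩
        exact ⟨i, rfl⟩
      · rintro ⟨i, h⟩
        exact ⟨i, Subtype.ext h⟩
    rw [this]
    exact Subgroup.closure_preimage_eq_top _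
  · rw [← G.subtype_injective.eq_iff, map_wv, map_one]
    show wv (fun a => Wr.gen m s (.inl a)) _ = 1 ↔ _
    rw [Wr.wv_gen, wv_flatMap, wv_flatMap]
    simp only [e5, Wr.s2_wd]
    have h1 : wv (fun _ : J => (1 : Equiv.Perm (Fin 6))) w = 1 := by
      induction w with
      | nil => rfl
      | cons j w ih => rw [wv_cons, ih, mul_one]
    rw [h1, ← map_wv, Prod.mk_eq_one, Prod.mk_eq_one, map_eq_one_iff io e4]
    simp

end Pool.Agent.Lib.MP_fed0c4_co.U
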