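import Pool.Agent.Lib.MP_fed0c4_co.U.Label
import Pool.Agent.Lib.MP_fed0c4_co.U.Wreath
import Pool.Agent.Lib.MP_fed0c4_co.U.SteinB
import Pool.Agent.Lib.MP_fed0c4_co.U.Time
import Pool.Agent.Lib.MP_fed0c4_co.U.Model
import Pool.Agent.Lib.MP_fed0c4_co.U.Tm

/-! Assembly: `M_d` outgrows every computable function for `d ≥ 3`. -/

namespace Pool.Agent.Lib.MP_fed0c4_co.U

open SimpleGraph

theorem length_flatMap_le {I J : Type} (ω : J → List I) (c : ℕ) (h : ∀ j, (ω j).length ≤ c)
    (w : List J) : (w.flatMap ω).length ≤ c * w.length := by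
  induction w with
  | nil => simp
  | cons a w ih =>
    have := h a
    rw [List.flatMap_cons, List.length_append, List.length_cons, Nat.mul_succ]
    omega

/-- A halting run of length `t` gives a realizable ball all of whose realizations are large. -/
theorem exists_ball {Q Γ : Type} [Fintype Q] [Fintype Γ] [Inhabited Γ] (δ : Tab Q Γ) :
    ∃ c : ℕ, ∀ (m n r t : ℕ) (c0 φ : Cfg Q Γ), Runs δ t c0 φ → rstep δ φ = none →
      (cw c0).length + 1 ≤ n → 4 ≤ n → c * 2 ^ n + 14 ≤ r →
      ∃ (N : ℕ) (B : SimpleGraph (Fin N)) (o : Fin N), Realizable B o r ∧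
        (B.neighborSet o).ncard = 3 + m ∧
        ∀ (V : Type) (H : SimpleGraph V), AllBalls H r B o → ∀ D : ℕ, H.ediam ≤ D →
          t + 1 ≤ (((3 + m + 1) ^ D) ^ ((3 + m + 1) ^ D)) ^ 25 := by
  classical
  obtain ⟨c, hc⟩ := exists_marked (Gen (Let Q Γ))
  refine ⟨c * 6, fun m n r t c0 φ run hφ hn hn4 hr => ?_⟩
  obtain ⟨R, _, _, ξ, h2, hrule, hne, hz⟩ := exists_model run hφ
  obtain ⟨K, _, _, p, q, hp, hq, hpq, hst⟩ := exists_stein (Let Q Γ) R h2 ξ
  obtain ⟨G, _, _, s, hs, hgen, ω, hω, hw⟩ := hc m K p q hp hq hpq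
  have hr1 : 1 ≤ r := by omega
  set X := cay s hs.sq hs.ne with hX
  let B0 := X.induce (ballSet X 1 r)
  let o0 : ballSet X 1 r := ⟨1, self_mem_ballSet _ _ _⟩
  have : Fintype (ballSet X 1 r) := Fintype.ofFinite _
  let e := B0.overFinIso (n := Fintype.card (ballSet X 1 r)) rfl
  have hXall : ∀ g, BallIso X g r (B0.overFin rfl) (e o0) := fun g =>
    (ballIso_of_iso (cayIso s hs.sq hs.ne g⁻¹) g 1 (by simp [cayIso]) r).trans e rfl
  have hdeg : ((B0.overFin rfl).neighborSet (e o0)).ncard = 3 + m := by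
    rw [← (degree_of_ballIso hr1 (hXall 1)).2]
    have : X.neighborSet 1 = Set.range s := by
      ext g
      simp [hX, cay, eq_comm]
    rw [this, Set.ncard_range_of_injective hs.inj]
    simp
  refine ⟨_, B0.overFin rfl, e o0,
    ⟨G, inferInstance, X, cay_connected s hs.sq hs.ne hgen, hXall⟩, hdeg, ?_⟩
  intro V H hH D hD
  obtain ⟨hconn, hballs⟩ := hH
  obtain ⟨v⟩ := hconn.nonempty
  have hballs0 : ∀ u, BallIso H u r B0 o0 := fun u => (hballs u).trans e.symm (by simp)
  obtain ⟨σ, hσ⟩ := exists_labels3 hs r H hballs0 (by omega)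
  have hκ : ∀ w : List (Gen (Let Q Γ)), w.length ≤ 6 * 2 ^ n →
      (wv (fun j => wv σ (ω j)) w = 1 ↔ wv (fun j => (p j * q j) ^ 2) w = 1) := by
    intro w hl
    have h3 : (w.flatMap ω).length + 12 ≤ r := by
      have h4 := length_flatMap_le ω c hω w
      have h5 : c * w.length ≤ c * (6 * 2 ^ n) := Nat.mul_le_mul_left _ hl
      rw [← mul_assoc] at h5
      omega
    rw [← wv_flatMap, ← hw]
    constructor
    · intro h
      exact (hσ _ h3 v).1 (by rw [h]; rfl)
    · intro h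
      exact Equiv.ext fun u => (hσ _ h3 u).2 h
  obtain ⟨S, _, η, Z, F, hF, hE, hZ, hI⟩ := hst (Equiv.Perm V) _ n (by omega) hκ
  have hinj := time_bound η
    (fun u u' h => hE u u' (h.len.1.trans hn4) (h.len.2.trans hn4) (hrule u u' h)) Z hI run
    (by rw [hZ _ (by omega)]; exact hne) (by rw [hZ _ (by simpa using hn)]; exact hz)
  have hcard := ballSet_card H (3 + m) (fun u => (degree_of_ballIso hr1 (hballs u)).1)
    (fun u => by rw [(degree_of_ballIso hr1 (hballs u)).2, hdeg]) v D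
  have huniv : ballSet H v D = Set.univ := by
    ext u
    simp only [ballSet, Set.mem_ofPred_eq, Set.mem_univ, iff_true]
    exact edist_le_ediam.trans hD
  rw [huniv] at hcard
  have : Finite V := Set.finite_univ_iff.mp hcard.1
  have h3 := Nat.card_le_card_of_injective _ (hF.comp hinj)
  have h4 : Nat.card V ≤ (3 + m + 1) ^ D := by
    rw [← Set.ncard_univ V]
    exact hcard.2
  have h5 : Nat.card (Equiv.Perm V) ≤ ((3 + m + 1) ^ D) ^ ((3 + m + 1) ^ D) := by
    rw [Nat.card_perm]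
    exact (Nat.factorial_le h4).trans (Nat.factorial_le_pow _)
  simp only [Nat.card_fun, Nat.card_eq_fintype_card, Fintype.card_fin, ← pow_mul] at h3
  exact h3.trans (Nat.pow_le_pow_left h5 25)

theorem computable_sum {f : ℕ → ℕ} (hf : Computable f) :
    Computable fun k => ∑ i ∈ Finset.range k, f i := by
  have h1 : Computable fun k : ℕ => (Nat.rec 0 (fun i acc => acc + f i) k : ℕ) :=
    Computable.nat_rec (f := fun k : ℕ => k) (g := fun _ => 0)
      (h := fun _ (x : ℕ × ℕ) => x.2 + f x.1) Computable.id (Computable.const 0)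
      (Primrec.nat_add.to_comp.comp (Computable.snd.comp Computable.snd)
        (hf.comp (Computable.fst.comp Computable.snd))).to₂
  refine h1.of_eq fun k => ?_
  induction k with
  | zero => rfl
  | succ k ih => rw [Finset.sum_range_succ, ← ih]

theorem computable_pow {a b : ℕ → ℕ} (ha : Computable a) (hb : Computable b) :
    Computable fun k => a k ^ b k :=
  (Primrec₂.unpaired'.1 Nat.Primrec.pow).to_comp.comp ha hb

theorem eventually_lt (d : ℕ) (hd : 3 ≤ d) (f : ℕ → ℕ) (hf : Computable f) :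
    ∀ᶠ r in Filter.atTop, f r < (maxMinDiam d r).toNat := by
  obtain ⟨m, rfl⟩ := Nat.exists_eq_add_of_le hd
  have hF : Computable fun n : ℕ => ∑ i ∈ Finset.range (4 ^ (n + 1)), f i :=
    (computable_sum hf).comp (computable_pow (Computable.const 4) Computable.succ)
  have hM := computable_pow (Computable.const (3 + m + 1)) hF
  obtain ⟨Q, Γ, _, _, _, δ, q0, a0, a1, hrun⟩ := exists_machine _
    (computable_pow (computable_pow hM hM) (Computable.const 25))
  obtain ⟨c, hc⟩ := exists_ball δ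
  rw [Filter.eventually_atTop]
  refine ⟨4 ^ (16 * c + 14), fun r hr => ?_⟩
  have h0 : 1 ≤ 4 ^ (16 * c + 14) := Nat.one_le_pow _ _ (by norm_num)
  set n := Nat.log 4 r with hn
  have hn1 : 16 * c + 14 ≤ n := Nat.le_log_of_pow_le (by norm_num) hr
  have hn2 : 4 ^ n ≤ r := Nat.pow_log_le_self 4 (by omega)
  have hn3 : r < 4 ^ (n + 1) := Nat.lt_pow_succ_log_self (by norm_num) _
  have hn4 : c * 2 ^ (n + 4) + 14 ≤ r := by
    have a1 : n < 2 ^ n := Nat.lt_two_pow_self
    have a2 : 4 ^ n = 2 ^ n * 2 ^ n := (mul_pow 2 2 n :)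
    have a3 : (16 * c + 14) * 2 ^ n ≤ 2 ^ n * 2 ^ n := Nat.mul_le_mul_right _ (by omega)
    have a4 : c * 2 ^ (n + 4) + 14 * 2 ^ n = (16 * c + 14) * 2 ^ n := by ring
    have a5 : 1 ≤ 2 ^ n := Nat.one_le_two_pow
    linarith
  obtain ⟨t, φ, ht, run, hφ⟩ := hrun n
  obtain ⟨N, B, o, hreal, hdeg, hB⟩ := hc m (n + 4) r t _ φ run hφ (by simp [cw])
    (by omega) hn4
  by_contra hlt
  have hfr : f r ≤ ∑ i ∈ Finset.range (4 ^ (n + 1)), f i :=
    Finset.single_le_sum (f := f) (fun _ _ => Nat.zero_le _) (Finset.mem_range.2 hn3)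
  set D := ∑ i ∈ Finset.range (4 ^ (n + 1)), f i with hD
  have hM : maxMinDiam (3 + m) r ≤ D := by
    rw [← ENat.natCast_toNat (maxMinDiam_ne_top (3 + m) r (by omega))]
    exact_mod_cast (not_lt.1 hlt).trans hfr
  have h1 : minDiam B o r ≤ D := by
    refine le_trans ?_ hM
    unfold maxMinDiam
    exact le_iSup_of_le N (le_iSup_of_le B (le_iSup_of_le o (le_iSup_of_le hreal
      (le_iSup_of_le hdeg le_rfl))))
  have h2 : minDiam B o r < (D + 1 : ℕ) := h1.trans_lt (by exact_mod_cast Nat.lt_succ_self D)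
  unfold minDiam at h2
  simp only [iInf_lt_iff] at h2
  obtain ⟨V, H, hH, hlt⟩ := h2
  have h3 := hB V H hH D (by
    push_cast at hlt
    exact Order.le_of_lt_add_one hlt)
  exact absurd (h3.trans ht) (Nat.not_succ_le_self t)

end Pool.Agent.Lib.MP_fed0c4_co.U
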