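import Pool.Agent.Lib.MP_fed0c4_co.U.Defs

/-! The Steinberg relations for all words follow from those for letters.
Plan. Key lemma: involutions `a b c u v` with `u = (a b)^2`, `v = (b c)^2`, `a c = c a`,
`u v = v u`, `a u = u a` satisfy `(a v)^2 = (u c)^2` and `(a v)^4 = 1` (from `c b c = b v = v b`,
`c u c = (a v)^2 u`, so `(c u)^2 = (a v)^2` commutes with `a`). Step `n → n + 1` (`n ≥ 1`):
(1) for `w = w1 ++ w2 ++ w3` of length `n + 1`, `w1, w3 ≠ []`, `i j h l` distinct, take
`a = E i j w1`, `b = E j h w2`, `c = E h l w3`, `u = E i h (w1 ++ w2)`, `v = E j l (w2 ++ w3)`: all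
splittings with two nonempty parts and all middle indices give the same value, which is `E i l w`
by definition (`hone`), and it is an involution; (2) `cm` for lengths `(n+1, ≤ n)` and then
`(n+1, n+1)`: split the long word through an index outside `i j k l`; (3) splittings with an empty
part: the key lemma with `w1 = []` or `w3 = []`. -/

namespace Pool.Agent.Lib.MP_fed0c4_co.U

/-- The key lemma on five involutions. -/
theorem stein_key {P : Type} [Group P] {a b c u v : P} (ha : a * a = 1) (hb : b * b = 1)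
    (hc : c * c = 1) (hu2 : u * u = 1) (hv2 : v * v = 1) (hu : (a * b) ^ 2 = u)
    (hv : (b * c) ^ 2 = v) (hac : Commute a c) (huv : Commute u v) (hau : Commute a u) :
    (a * v) ^ 2 = (u * c) ^ 2 ∧ (a * v) ^ 2 * (a * v) ^ 2 = 1 := by
  have cn : ∀ {x : P}, x * x = 1 → ∀ y, x * (x * y) = y := fun h y => by
    rw [← mul_assoc, h, one_mul]
  have h1 : c * b * c = b * v := by
    rw [← hv, sq]
    simp only [mul_assoc, cn hb]
  have h2a : v * (b * v * b) = 1 := by
    rw [← h1, ← hv, sq]
    simp only [mul_assoc, cn hb, cn hc, hb]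
  have h2b : b * v * b = v := mul_left_cancel (h2a.trans hv2.symm)
  have h2 : b * v = v * b := by
    calc b * v = b * (b * v * b) := by rw [h2b]
      _ = v * b := by simp only [mul_assoc, cn hb]
  have h3 : b * a * b = u * a := by
    rw [← hau.eq, ← hu, sq]
    simp only [mul_assoc, cn ha]
  have hca : ∀ y, c * (a * y) = a * (c * y) := fun y => by
    rw [← mul_assoc, ← hac.eq, mul_assoc]
  have h4 : c * u * c = (a * v) ^ 2 * u := by
    calc c * u * c = a * (c * b * c) * a * (c * b * c) := by
          rw [← hu, sq]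
          simp only [mul_assoc, hca, cn hc]
      _ = a * (v * b) * a * (b * v) := by rw [h1, ← h2]
      _ = a * v * (b * a * b) * v := by simp only [mul_assoc]
      _ = a * v * (a * u) * v := by rw [h3, hau.eq]
      _ = a * v * a * (u * v) := by simp only [mul_assoc]
      _ = (a * v) ^ 2 * u := by
          rw [huv.eq, sq]
          simp only [mul_assoc]
  have h5 : (c * u) ^ 2 = (a * v) ^ 2 := by
    calc (c * u) ^ 2 = c * u * c * u := by
          rw [sq]
          simp only [mul_assoc]
      _ = (a * v) ^ 2 := by rw [h4, mul_assoc, hu2, mul_one]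
  have h6 : Commute a ((a * v) ^ 2) := h5 ▸ (hac.mul_right hau).pow_right 2
  have h7a : (a * v) ^ 2 = v * a * v * a := by
    calc (a * v) ^ 2 = (a * v) ^ 2 * a * a := by rw [mul_assoc, ha, mul_one]
      _ = a * (a * v) ^ 2 * a := by rw [h6.eq]
      _ = v * a * v * a := by
          rw [sq]
          simp only [mul_assoc, cn ha]
  have h7 : (a * v) ^ 2 * (a * v) ^ 2 = 1 := by
    calc (a * v) ^ 2 * (a * v) ^ 2 = (a * v) ^ 2 * (v * a * v * a) := by rw [← h7a]
      _ = 1 := by
          rw [sq]
          simp only [mul_assoc, cn ha, cn hv2, ha]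
  have h8 : (u * c) ^ 2 * (a * v) ^ 2 = 1 := by
    rw [← h5, sq, sq]
    simp only [mul_assoc, cn hc, cn hu2, hu2]
  exact ⟨mul_right_cancel (h7.trans h8.symm), h7⟩

theorem fresh_index : ∀ i j k l : Fin 5, ∃ s : Fin 5, s ≠ i ∧ s ≠ j ∧ s ≠ k ∧ s ≠ l := by decide

theorem E_cons {Λ P : Type} [Group P] {κ : Gen Λ → P}
    (hone : ∀ i j a, i ≠ j → κ (i, j, some a) = E κ i j [a]) (i l : Fin 5) (a : Λ) (u : List Λ) :
    E κ i l (a :: u) = (E κ i (spare i l) [a] * E κ (spare i l) l u) ^ 2 := by
  rw [← hone i (spare i l) a (spare_ne i l).1.symm, sq]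
  simp only [E, Ew, wv_append, wv_cons]

section step

variable {Λ P : Type} [Group P] {κ : Gen Λ → P} {n : ℕ}

/-- Moving the cut and the middle index. -/
theorem St.shift (h : St κ n) {i j g l : Fin 5} (hij : i ≠ j) (hig : i ≠ g) (hil : i ≠ l)
    (hjg : j ≠ g) (hjl : j ≠ l) (hgl : g ≠ l) (w1 w2 w3 : List Λ)
    (h12 : w1.length + w2.length ≤ n) (h23 : w2.length + w3.length ≤ n) :
    (E κ i j w1 * E κ j l (w2 ++ w3)) ^ 2 = (E κ i g (w1 ++ w2) * E κ g l w3) ^ 2 ∧
      (E κ i j w1 * E κ j l (w2 ++ w3)) ^ 2 * (E κ i j w1 * E κ j l (w2 ++ w3)) ^ 2 = 1 := by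
  have e12 : (w1 ++ w2).length ≤ n := by rw [List.length_append]; exact h12
  have e23 : (w2 ++ w3).length ≤ n := by rw [List.length_append]; exact h23
  exact stein_key (b := E κ j g w2) (h.sq i j w1 hij (by omega)) (h.sq j g w2 hjg (by omega))
    (h.sq g l w3 hgl (by omega)) (h.sq i g _ hig e12) (h.sq j l _ hjl e23)
    (h.mu i j g w1 w2 hij hjg hig h12) (h.mu j g l w2 w3 hjg hgl hjl h23)
    (h.cm i j g l w1 w3 hij hgl hjg hil (by omega) (by omega))
    (h.cm i g j l _ _ hig hjl hjg.symm hil e12 e23)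
    (h.cm i j i g _ _ hij hig hij.symm hig (by omega) e12)

/-- Two cuts with nonempty parts and different middle indices give the same value. -/
theorem St.cuts (h : St κ n) {i j g l : Fin 5} (hij : i ≠ j) (hig : i ≠ g) (hil : i ≠ l)
    (hjg : j ≠ g) (hjl : j ≠ l) (hgl : g ≠ l) {x y x' y' : List Λ} (e : x ++ y = x' ++ y')
    (hl : x.length + y.length ≤ n + 1) (hx : x ≠ []) (hy : y ≠ []) (hx' : x' ≠ [])
    (hy' : y' ≠ []) :
    (E κ i j x * E κ j l y) ^ 2 = (E κ i g x' * E κ g l y') ^ 2 := by
  have px := List.length_pos_iff.2 hx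
  have py := List.length_pos_iff.2 hy
  have px' := List.length_pos_iff.2 hx'
  have py' := List.length_pos_iff.2 hy'
  rcases List.append_eq_append_iff.1 e with ⟨z, rfl, rfl⟩ | ⟨z, rfl, rfl⟩
  · rw [List.length_append] at hl
    exact (h.shift hij hig hil hjg hjl hgl x z y' (by omega) (by omega)).1
  · rw [List.length_append] at hl
    exact (h.shift hig hij hil hjg.symm hgl hjl x' z y (by omega) (by omega)).1.symm

/-- The product rule for two nonempty words. -/
theorem St.mu1 (h : St κ n) (hone : ∀ i j a, i ≠ j → κ (i, j, some a) = E κ i j [a])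
    {i j l : Fin 5} (hij : i ≠ j) (hjl : j ≠ l) (hil : i ≠ l) {x y : List Λ}
    (hl : x.length + y.length ≤ n + 1) (hx : x ≠ []) (hy : y ≠ []) :
    (E κ i j x * E κ j l y) ^ 2 = E κ i l (x ++ y) := by
  obtain ⟨g, hgi, hgj, hgl, hgs⟩ := fresh_index i j l (spare i l)
  obtain ⟨a, t, rfl⟩ := List.exists_cons_of_ne_nil hx
  have ht : t ++ y ≠ [] := by simp [hy]
  rw [List.cons_append, E_cons hone i l,
    h.cuts hij hgi.symm hil hgj.symm hjl hgl rfl hl hx hy hx hy]
  exact h.cuts hgi.symm (spare_ne i l).1.symm hil hgs hgl (spare_ne i l).2 (by simp) hl hx hy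
    (by simp) ht

theorem two_parts {w : List Λ} (hw : 2 ≤ w.length) :
    ∃ x y : List Λ, x ≠ [] ∧ y ≠ [] ∧ w = x ++ y := by
  match w, hw with
  | a :: b :: t, _ => exact ⟨[a], b :: t, by simp, by simp, rfl⟩

theorem St.sq1 (h : St κ n) (hn : 1 ≤ n)
    (hone : ∀ i j a, i ≠ j → κ (i, j, some a) = E κ i j [a])
    {i l : Fin 5} (hil : i ≠ l) {w : List Λ} (hw : w.length ≤ n + 1) :
    E κ i l w * E κ i l w = 1 := by
  by_cases hs : w.length ≤ n
  · exact h.sq i l w hil hs
  obtain ⟨x, y, hx, hy, rfl⟩ := two_parts (w := w) (by omega)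
  obtain ⟨j, hji, hjl, -, -⟩ := fresh_index i l i l
  obtain ⟨g, hgi, hgj, hgl, -⟩ := fresh_index i j l l
  have px := List.length_pos_iff.2 hx
  have py := List.length_pos_iff.2 hy
  rw [List.length_append] at hw
  rw [← h.mu1 hone hji.symm hjl hil hw hx hy]
  have := (h.shift hji.symm hgi.symm hil hgj.symm hjl hgl x [] y (by simp; omega)
    (by simp; omega)).2
  simpa using this

/-- A long word commutes with whatever the short words commute with. -/
theorem St.cm0 (h : St κ n) (hn : 1 ≤ n)
    (hone : ∀ i j a, i ≠ j → κ (i, j, some a) = E κ i j [a]) {k l : Fin 5} {z : P}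
    (hz : ∀ i j u, i ≠ j → j ≠ k → i ≠ l → u.length ≤ n → Commute (E κ i j u) z)
    {i j : Fin 5} {u : List Λ} (hij : i ≠ j) (hjk : j ≠ k) (hil : i ≠ l)
    (hu : u.length ≤ n + 1) : Commute (E κ i j u) z := by
  by_cases hs : u.length ≤ n
  · exact hz i j u hij hjk hil hs
  obtain ⟨x, y, hx, hy, rfl⟩ := two_parts (w := u) (by omega)
  obtain ⟨s, hsi, hsj, hsk, hsl⟩ := fresh_index i j k l
  have px := List.length_pos_iff.2 hx
  have py := List.length_pos_iff.2 hy
  rw [List.length_append] at hu
  rw [← h.mu1 hone hsi.symm hsj hij hu hx hy]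
  exact ((hz i s x hsi.symm hsk hil (by omega)).mul_left
    (hz s j y hsj hjk hsl (by omega))).pow_left 2

theorem St.cm1 (h : St κ n) (hn : 1 ≤ n)
    (hone : ∀ i j a, i ≠ j → κ (i, j, some a) = E κ i j [a]) {i j k l : Fin 5} {u v : List Λ}
    (hij : i ≠ j) (hkl : k ≠ l) (hjk : j ≠ k) (hil : i ≠ l) (hu : u.length ≤ n + 1)
    (hv : v.length ≤ n + 1) : Commute (E κ i j u) (E κ k l v) := by
  refine h.cm0 hn hone (k := k) (l := l) ?_ hij hjk hil hu
  intro i j u hij hjk hil hu
  refine (h.cm0 hn hone (k := i) (l := j) ?_ hkl hil.symm hjk.symm hv).symm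
  intro k l v hkl hli hkj hv
  exact h.cm k l i j v u hkl hij hli hkj hv hu

theorem St.succ (h : St κ n) (hn : 1 ≤ n)
    (hone : ∀ i j a, i ≠ j → κ (i, j, some a) = E κ i j [a]) : St κ (n + 1) where
  sq := fun _ _ _ hij hu => h.sq1 hn hone hij hu
  cm := fun _ _ _ _ _ _ hij hkl hjk hil hu hv => h.cm1 hn hone hij hkl hjk hil hu hv
  mu := by
    intro i j l u v hij hjl hil hl
    by_cases hs : u.length + v.length ≤ n
    · exact h.mu i j l u v hij hjl hil hs
    obtain ⟨g, hgi, hgj, hgl, -⟩ := fresh_index i j l l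
    by_cases hu : u = []
    · subst hu
      simp only [List.length_nil, zero_add] at hl hs
      obtain ⟨x, y, hx, hy, rfl⟩ := two_parts (w := v) (by omega)
      have px := List.length_pos_iff.2 hx
      have py := List.length_pos_iff.2 hy
      have hl' := hl
      rw [List.length_append] at hl'
      have hx1 : x.length ≤ n + 1 := by omega
      have k := (stein_key (a := E κ i j []) (b := E κ j g x) (c := E κ g l y) (u := E κ i g x)
        (v := E κ j l (x ++ y)) (h.sq i j [] hij (by simp)) (h.sq j g x hgj.symm (by omega))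
        (h.sq g l y hgl (by omega)) (h.sq i g x hgi.symm (by omega)) (h.sq1 hn hone hjl hl)
        (h.mu i j g [] x hij hgj.symm hgi.symm (by simp; omega))
        (h.mu1 hone hgj.symm hgl hjl hl' hx hy)
        (h.cm i j g l [] y hij hgl hgj.symm hil (by simp) (by omega))
        (h.cm1 hn hone hgi.symm hjl hgj hil hx1 hl)
        (h.cm i j i g [] x hij hgi.symm hij.symm hgi.symm (by simp) (by omega))).1
      rw [k, List.nil_append]
      exact h.mu1 hone hgi.symm hgl hil hl' hx hy
    by_cases hv : v = []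
    · subst hv
      simp only [List.length_nil, add_zero] at hl hs
      obtain ⟨x, y, hx, hy, rfl⟩ := two_parts (w := u) (by omega)
      have px := List.length_pos_iff.2 hx
      have py := List.length_pos_iff.2 hy
      have hl' := hl
      rw [List.length_append] at hl'
      have hx1 : x.length ≤ n + 1 := by omega
      have hy1 : y.length ≤ n + 1 := by omega
      have e0 : (E κ g j y * E κ j l []) ^ 2 = E κ g l y := by
        have := h.mu g j l y [] hgj hjl hgl (by simp; omega)
        rwa [List.append_nil] at this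
      have k := (stein_key (a := E κ i g x) (b := E κ g j y) (c := E κ j l [])
        (u := E κ i j (x ++ y)) (v := E κ g l y) (h.sq i g x hgi.symm (by omega))
        (h.sq g j y hgj (by omega)) (h.sq j l [] hjl (by simp)) (h.sq1 hn hone hij hl)
        (h.sq g l y hgl (by omega)) (h.mu1 hone hgi.symm hgj hij hl' hx hy) e0
        (h.cm i g j l x [] hgi.symm hjl hgj hil (by omega) (by simp))
        (h.cm1 hn hone hij hgl hgj.symm hil hl hy1)
        (h.cm1 hn hone hgi.symm hij hgi hij hx1 hl)).1
      rw [← k, List.append_nil]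
      exact h.mu1 hone hgi.symm hgl hil hl' hx hy
    exact h.mu1 hone hij hjl hil hl hu hv

theorem St.mono {m : ℕ} (h : St κ n) (hm : m ≤ n) : St κ m where
  sq := fun i j u hij hu => h.sq i j u hij (hu.trans hm)
  cm := fun i j k l u v hij hkl hjk hil hu hv =>
    h.cm i j k l u v hij hkl hjk hil (hu.trans hm) (hv.trans hm)
  mu := fun i j l u v hij hjl hil hl => h.mu i j l u v hij hjl hil (hl.trans hm)

end step

theorem St.all {Λ P : Type} [Group P] {κ : Gen Λ → P} (h : St κ 1)
    (hone : ∀ i j a, i ≠ j → κ (i, j, some a) = E κ i j [a]) (n : ℕ) : St κ n := by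
  have H : ∀ m, St κ (m + 1) := by
    intro m
    induction m with
    | zero => exact h
    | succ m ih => exact ih.succ (by omega) hone
  exact (H n).mono (by omega)

end Pool.Agent.Lib.MP_fed0c4_co.U
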